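import Pool.Agent.Y133.Half.Gr0
import Pool.Agent.H914R2.Core0

/-!
# Permutation operators on an invariant summand
-/

set_option autoImplicit false
set_option linter.unusedSectionVars false

namespace Pool.Agent.V8H87.WG

open Module
open scoped TensorProduct
open Pool.Agent.Y133.Half (repAlg rep_mem repAlg_le commutant_le sq_le_mul_commutant
  finrank_span_bc)

section lift

/-- A lower bound for the rank of a linear map. -/
theorem finrank_le_of_lift {K A S C U : Type*} [Field K] [AddCommGroup A] [Module K A]
    [FiniteDimensional K A] [AddCommGroup S] [Module K S] [AddCommGroup C] [Module K C]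
    [AddCommGroup U] [Module K U] [FiniteDimensional K U] (π : S →ₗ[K] U) (κ : S →ₗ[K] C)
    (j : A →ₗ[K] C) (h1 : ∀ a, ∃ s, κ s = j a) (h2 : ∀ s a, κ s = j a → π s = 0 → a = 0) :
    finrank K A ≤ finrank K (LinearMap.range π) := by
  choose γ hγ using h1
  let b := Module.finBasis K A
  have hind : LinearIndependent K (fun s => (⟨π (γ (b s)), _, rfl⟩ : LinearMap.range π)) := by
    rw [Fintype.linearIndependent_iff]
    intro c hc
    have h3 : π (∑ s, c s • γ (b s)) = 0 := by
      have := congrArg (LinearMap.range π).subtype hc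
      rw [map_sum, map_zero] at this
      rw [map_sum]
      simp only [map_smul] at this ⊢
      exact this
    have h4 := h2 _ (∑ s, c s • b s) (by
      rw [map_sum, map_sum]
      refine Finset.sum_congr rfl fun s _ => ?_
      rw [map_smul, map_smul, hγ]) h3
    intro s
    exact Fintype.linearIndependent_iff.1 b.linearIndependent c h4 s
  have := hind.fintype_card_le_finrank
  rwa [Fintype.card_fin] at this

end lift

section nondeg

variable {K U : Type*} [Field K] [CharZero K] [AddCommGroup U] [Module K U]
  [FiniteDimensional K U]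

/-- The trace form of a semisimple algebra of operators is nondegenerate. -/
theorem eq_zero_of_trace (B : Subalgebra K (Module.End K U)) [IsSemisimpleRing B]
    {y : Module.End K U} (hy : y ∈ B) (h : ∀ x ∈ B, LinearMap.trace K U (x * y) = 0) : y = 0 := by
  have hnil : ∀ x ∈ B, IsNilpotent (x * y) := by
    intro x hx
    apply Pool.Agent.H914.isNilpotent_of_trace_pow
    intro r
    have h1 : (x * y) ^ r * x ∈ B := B.mul_mem (B.pow_mem (B.mul_mem hx hy) r) hx
    rw [pow_succ, ← mul_assoc]
    exact h _ h1
  have hj : (⟨y, hy⟩ : B) ∈ Ring.jacobson B := by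
    rw [← Ideal.jacobson_bot, Ideal.mem_jacobson_iff]
    intro x
    obtain ⟨n, hn⟩ := hnil x x.2
    have h1 : IsNilpotent (x * (⟨y, hy⟩ : B)) := ⟨n, Subtype.ext hn⟩
    have h2 : IsUnit (1 + x * (⟨y, hy⟩ : B)) := h1.isUnit_one_add
    obtain ⟨z, hz⟩ := h2.exists_left_inv
    refine ⟨z, ?_⟩
    rw [Ideal.mem_bot]
    calc z * x * (⟨y, hy⟩ : B) + z - 1 = z * (1 + x * (⟨y, hy⟩ : B)) - 1 := by noncomm_ring
      _ = 0 := by rw [hz, sub_self]
  have hb : Ring.jacobson B = ⊥ := IsSemisimpleModule.jacobson_eq_bot B B
  rw [hb] at hj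
  exact congrArg Subtype.val ((Submodule.mem_bot _).1 hj)

end nondeg

section res

variable {K M ι : Type*} [Field K] [AddCommGroup M] [Module K M] [FiniteDimensional K M]
  [Fintype ι] [DecidableEq ι] {N : ℕ}

/-- The representation on an invariant summand. -/
noncomputable def resRep (ρ : Equiv.Perm (Fin N) →* Module.End K M) (E : Module.End K M)
    (hE : ∀ σ, ρ σ * E = E * ρ σ) :
    Equiv.Perm (Fin N) →* Module.End K (LinearMap.range E) where
  toFun σ := (ρ σ).restrict (p := LinearMap.range E) (q := LinearMap.range E) (by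
    rintro _ ⟨x, rfl⟩
    exact ⟨ρ σ x, (congrArg (fun f : Module.End K M => f x) (hE σ)).symm⟩)
  map_one' := by
    apply LinearMap.ext
    intro x
    apply Subtype.ext
    change ρ 1 (x : M) = x
    rw [map_one]
    rfl
  map_mul' σ τ := by
    apply LinearMap.ext
    intro x
    apply Subtype.ext
    change ρ (σ * τ) (x : M) = ρ σ (ρ τ (x : M))
    rw [map_mul]
    rfl

lemma resRep_coe (ρ : Equiv.Perm (Fin N) →* Module.End K M) (E : Module.End K M)
    (hE : ∀ σ, ρ σ * E = E * ρ σ) (σ : Equiv.Perm (Fin N)) (x : LinearMap.range E) :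
    ((resRep ρ E hE σ x : LinearMap.range E) : M) = ρ σ (x : M) := rfl

/-- The compression to the summand. -/
noncomputable def cmp (E : Module.End K M) :
    Module.End K M →ₗ[K] Module.End K (LinearMap.range E) where
  toFun x := E.rangeRestrict ∘ₗ x ∘ₗ (LinearMap.range E).subtype
  map_add' x y := by
    apply LinearMap.ext
    intro m
    simp only [LinearMap.comp_apply, LinearMap.add_apply, map_add]
  map_smul' c x := by
    apply LinearMap.ext
    intro m
    simp only [LinearMap.comp_apply, LinearMap.smul_apply, map_smul, RingHom.id_apply]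

lemma cmp_coe (E x : Module.End K M) (m : LinearMap.range E) :
    ((cmp E x m : LinearMap.range E) : M) = E (x (m : M)) := rfl

lemma fix_of {E : Module.End K M} (hEE : E * E = E) (m : LinearMap.range E) : E (m : M) = m := by
  obtain ⟨_, x, rfl⟩ := m
  exact congrArg (fun f : Module.End K M => f x) hEE

lemma cmp_rho {ρ : Equiv.Perm (Fin N) →* Module.End K M} {E : Module.End K M}
    (hE : ∀ σ, ρ σ * E = E * ρ σ) (hEE : E * E = E) (σ : Equiv.Perm (Fin N)) :
    cmp E (ρ σ * E) = resRep ρ E hE σ := by
  apply LinearMap.ext
  intro m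
  apply Subtype.ext
  rw [cmp_coe, resRep_coe, Module.End.mul_apply, fix_of hEE, ← Module.End.mul_apply, ← hE,
    Module.End.mul_apply, fix_of hEE]

/-- The trace of an operator on the summand. -/
lemma trace_cmp {E : Module.End K M} (x : Module.End K M) :
    LinearMap.trace K (LinearMap.range E) (cmp E x) = LinearMap.trace K M (x * E) := by
  have h1 : LinearMap.trace K (LinearMap.range E) (E.rangeRestrict ∘ₗ
      (x ∘ₗ (LinearMap.range E).subtype)) = LinearMap.trace K M
        ((x ∘ₗ (LinearMap.range E).subtype) ∘ₗ E.rangeRestrict) := LinearMap.trace_comp_comm' _ _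
  exact h1

lemma cmp_mul {E x y : Module.End K M} (hEE : E * E = E) (hx : x * E = E * x) :
    cmp E (x * y) = cmp E x * cmp E y := by
  apply LinearMap.ext
  intro m
  apply Subtype.ext
  rw [cmp_coe, Module.End.mul_apply, Module.End.mul_apply, cmp_coe, cmp_coe]
  have h1 : ∀ v, E (x v) = x (E v) := fun v =>
    (congrArg (fun f : Module.End K M => f v) hx).symm
  have h2 : ∀ v, E (E v) = E v := fun v => congrArg (fun f : Module.End K M => f v) hEE
  rw [h1, h1, h2]

lemma cmp_rho' {ρ : Equiv.Perm (Fin N) →* Module.End K M} {E : Module.End K M}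
    (hE : ∀ σ, ρ σ * E = E * ρ σ) (hEE : E * E = E) (σ : Equiv.Perm (Fin N)) :
    cmp E (ρ σ) = resRep ρ E hE σ := by
  apply LinearMap.ext
  intro m
  apply Subtype.ext
  rw [cmp_coe, resRep_coe, ← Module.End.mul_apply, ← hE, Module.End.mul_apply, fix_of hEE]

lemma span_comm {ρ : Equiv.Perm (Fin N) →* Module.End K M} {E : Module.End K M}
    (hE : ∀ σ, ρ σ * E = E * ρ σ) {y : Module.End K M}
    (hy : y ∈ Submodule.span K (Set.range ρ)) : y * E = E * y := by
  induction hy using Submodule.span_induction with
  | mem x hx => obtain ⟨σ, rfl⟩ := hx; exact hE σ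
  | zero => rw [zero_mul, mul_zero]
  | add a b _ _ ha hb => rw [add_mul, mul_add, ha, hb]
  | smul c a _ ha => rw [smul_mul_assoc, mul_smul_comm, ha]

lemma cmp_mem {ρ : Equiv.Perm (Fin N) →* Module.End K M} {E : Module.End K M}
    (hE : ∀ σ, ρ σ * E = E * ρ σ) (hEE : E * E = E) {y : Module.End K M}
    (hy : y ∈ Submodule.span K (Set.range ρ)) : cmp E y ∈ repAlg (resRep ρ E hE) := by
  induction hy using Submodule.span_induction with
  | mem x hx =>
    obtain ⟨σ, rfl⟩ := hx
    rw [cmp_rho' hE hEE]
    exact rep_mem _ σ
  | zero => rw [map_zero]; exact Subalgebra.zero_mem _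
  | add a b _ _ ha hb => rw [map_add]; exact Subalgebra.add_mem _ ha hb
  | smul c a _ ha => rw [map_smul]; exact Subalgebra.smul_mem _ ha c

/-- The trace form on the span of the permutation operators on the summand is nondegenerate. -/
theorem nondeg_perm [CharZero K] {ρ : Equiv.Perm (Fin N) →* Module.End K M} {E : Module.End K M}
    (hE : ∀ σ, ρ σ * E = E * ρ σ) (hEE : E * E = E) {y : Module.End K M}
    (hy : y ∈ Submodule.span K (Set.range ρ))
    (h : ∀ x ∈ Submodule.span K (Set.range ρ), LinearMap.trace K M (x * y * E) = 0) :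
    y * E = 0 := by
  have h1 : cmp E y = 0 := by
    refine eq_zero_of_trace (repAlg (resRep ρ E hE)) (cmp_mem hE hEE hy) ?_
    intro x' hx'
    have h2 : x' ∈ (Submodule.span K (Set.range ρ)).map (cmp E) := by
      have h3 := repAlg_le _ hx'
      rw [Submodule.map_span, ← Set.range_comp]
      have h4 : (⇑(cmp E) ∘ ⇑ρ) = ⇑(resRep ρ E hE) := by
        funext σ
        exact cmp_rho' hE hEE σ
      rw [h4]
      exact h3
    obtain ⟨x, hx, rfl⟩ := h2
    rw [← cmp_mul hEE (span_comm hE hx), trace_cmp]
    exact h x hx
  have h2 := span_comm hE hy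
  apply LinearMap.ext
  intro v
  have h3 := congrArg (fun f : Module.End K (LinearMap.range E) =>
    ((f ⟨E v, v, rfl⟩ : LinearMap.range E) : M)) h1
  simp only [cmp_coe] at h3
  rw [LinearMap.zero_apply, Module.End.mul_apply]
  have h4 : E (y (E v)) = y (E (E v)) := (congrArg (fun f : Module.End K M => f (E v)) h2).symm
  have h5 : E (E v) = E v := congrArg (fun f : Module.End K M => f v) hEE
  rw [h4, h5] at h3
  exact h3

/-- The dimension of the span of the permutation operators on the summand, over an algebraically
closed field. -/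
theorem span_res_closed [IsAlgClosed K] [CharZero K] (e : Basis (Fin N → ι) K M)
    {ρ : Equiv.Perm (Fin N) →* Module.End K M}
    (hP : ∀ σ w, ∃ s : K, s ≠ 0 ∧ ρ σ (e (w ∘ σ)) = s • e w) {E : Module.End K M}
    (hE : ∀ σ, ρ σ * E = E * ρ σ) (hEE : E * E = E) :
    finrank K (LinearMap.range E) ^ 2 ≤
      finrank K (Submodule.span K (Set.range fun σ => ρ σ * E)) *
        (N + 1) ^ (Fintype.card ι ^ 2) := by
  let D : Submodule K (Module.End K (LinearMap.range E)) :=
    { carrier := {u | ∀ σ m, u (resRep ρ E hE σ m) = resRep ρ E hE σ (u m)}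
      zero_mem' := fun σ m => by rw [LinearMap.zero_apply, LinearMap.zero_apply, map_zero]
      add_mem' := fun {a b} ha hb σ m => by
        rw [LinearMap.add_apply, LinearMap.add_apply, ha σ m, hb σ m, map_add]
      smul_mem' := fun c a ha σ m => by
        rw [LinearMap.smul_apply, LinearMap.smul_apply, ha σ m, map_smul] }
  let D' : Submodule K (Module.End K M) :=
    { carrier := {u | ∀ σ m, u (ρ σ m) = ρ σ (u m)}
      zero_mem' := fun σ m => by rw [LinearMap.zero_apply, LinearMap.zero_apply, map_zero]
      add_mem' := fun {a b} ha hb σ m => by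
        rw [LinearMap.add_apply, LinearMap.add_apply, ha σ m, hb σ m, map_add]
      smul_mem' := fun c a ha σ m => by
        rw [LinearMap.smul_apply, LinearMap.smul_apply, ha σ m, map_smul] }
  have hDD' : finrank K D ≤ finrank K D' := by
    let J : D →ₗ[K] D' :=
      { toFun := fun u => ⟨(LinearMap.range E).subtype ∘ₗ (u : Module.End K (LinearMap.range E)) ∘ₗ
            E.rangeRestrict, fun σ m => by
          have h1 : E.rangeRestrict (ρ σ m) = resRep ρ E hE σ (E.rangeRestrict m) := by
            apply Subtype.ext
            exact (congrArg (fun f : Module.End K M => f m) (hE σ)).symm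
          have h2 := u.2 σ (E.rangeRestrict m)
          simp only [LinearMap.comp_apply, h1, h2]
          rfl⟩
        map_add' := fun u u' => by
          apply Subtype.ext
          apply LinearMap.ext
          intro m
          rfl
        map_smul' := fun c u => by
          apply Subtype.ext
          apply LinearMap.ext
          intro m
          rfl }
    have hJ : Function.Injective J := by
      intro u u' h
      apply Subtype.ext
      apply LinearMap.ext
      intro m
      apply Subtype.ext
      have h1 := congrArg (fun x : D' => (x : Module.End K M) (m : M)) h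
      have h2 : E.rangeRestrict (m : M) = m := Subtype.ext (fix_of hEE m)
      have h3 : (((u : Module.End K (LinearMap.range E)) (E.rangeRestrict (m : M)) :
          LinearMap.range E) : M) = (((u' : Module.End K (LinearMap.range E))
            (E.rangeRestrict (m : M)) : LinearMap.range E) : M) := h1
      rwa [h2] at h3
    exact LinearMap.finrank_le_finrank_of_injective hJ
  have h1 := commutant_le e (fun σ => ρ σ) hP D' fun u hu σ m => hu σ m
  have h2 := sq_le_mul_commutant K (repAlg (resRep ρ E hE)) (LinearMap.range E) D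
    fun u hu σ m => hu ⟨_, rep_mem (resRep ρ E hE) σ⟩ m
  have h3 : finrank K (repAlg (resRep ρ E hE)) ≤
      finrank K (Submodule.span K (Set.range fun σ => ρ σ * E)) := by
    have h4 : Subalgebra.toSubmodule (repAlg (resRep ρ E hE)) ≤
        (Submodule.span K (Set.range fun σ => ρ σ * E)).map (cmp E) := by
      refine (repAlg_le _).trans ?_
      rw [Submodule.map_span, ← Set.range_comp]
      have h5 : (⇑(cmp E) ∘ fun σ => ρ σ * E) = ⇑(resRep ρ E hE) := by
        funext σ
        exact cmp_rho hE hEE σ
      rw [h5]
    exact (Submodule.finrank_mono h4).trans (Submodule.finrank_map_le _ _)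
  exact h2.trans (Nat.mul_le_mul h3 (hDD'.trans h1))

/-- The dimension of the span of the permutation operators on the summand. -/
theorem span_res [CharZero K] (e : Basis (Fin N → ι) K M)
    {ρ : Equiv.Perm (Fin N) →* Module.End K M}
    (hP : ∀ σ w, ∃ s : K, s ≠ 0 ∧ ρ σ (e (w ∘ σ)) = s • e w) {E : Module.End K M}
    (hE : ∀ σ, ρ σ * E = E * ρ σ) (hEE : E * E = E) :
    finrank K (LinearMap.range E) ^ 2 ≤
      finrank K (Submodule.span K (Set.range fun σ => ρ σ * E)) *
        (N + 1) ^ (Fintype.card ι ^ 2) := by
  have hc : CharZero (AlgebraicClosure K) :=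
    charZero_of_injective_algebraMap (algebraMap K (AlgebraicClosure K)).injective
  let ρ' : Equiv.Perm (Fin N) →* Module.End (AlgebraicClosure K) (AlgebraicClosure K ⊗[K] M) :=
    { toFun := fun σ => (ρ σ).baseChange (AlgebraicClosure K)
      map_one' := by rw [map_one, LinearMap.baseChange_one]
      map_mul' := fun σ τ => by rw [map_mul, LinearMap.baseChange_mul] }
  let E' : Module.End (AlgebraicClosure K) (AlgebraicClosure K ⊗[K] M) :=
    E.baseChange (AlgebraicClosure K)
  have hE' : ∀ σ, ρ' σ * E' = E' * ρ' σ := by
    intro σ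
    change (ρ σ).baseChange (AlgebraicClosure K) * E.baseChange (AlgebraicClosure K) =
      E.baseChange (AlgebraicClosure K) * (ρ σ).baseChange (AlgebraicClosure K)
    rw [← LinearMap.baseChange_mul, ← LinearMap.baseChange_mul, hE]
  have hEE' : E' * E' = E' := by
    change E.baseChange (AlgebraicClosure K) * E.baseChange (AlgebraicClosure K) = _
    rw [← LinearMap.baseChange_mul, hEE]
  have h := span_res_closed (e.baseChange (AlgebraicClosure K)) (ρ := ρ') (by
    intro σ w
    obtain ⟨s, hs, h⟩ := hP σ w
    refine ⟨algebraMap K _ s, (map_ne_zero _).2 hs, ?_⟩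
    rw [Basis.baseChange_apply, Basis.baseChange_apply]
    change (ρ σ).baseChange (AlgebraicClosure K) _ = _
    rw [LinearMap.baseChange_tmul, h, TensorProduct.tmul_smul, algebraMap_smul]) hE' hEE'
  have h1 := finrank_span_bc (AlgebraicClosure K) (Set.range fun σ => ρ σ * E)
  have h2 : (fun u : Module.End K M => u.baseChange (AlgebraicClosure K)) ''
      (Set.range fun σ => ρ σ * E) = Set.range fun σ => ρ' σ * E' := by
    rw [← Set.range_comp]
    congr 1
    funext σ
    exact LinearMap.baseChange_mul _ _
  rw [h2] at h1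
  have h3 : finrank (AlgebraicClosure K) (LinearMap.range E') = finrank K (LinearMap.range E) := by
    have e1 := Pool.Agent.H914.trace_idem (K := AlgebraicClosure K) hEE'
    have e2 := Pool.Agent.H914.trace_idem (K := K) hEE
    have e3 : LinearMap.trace (AlgebraicClosure K) (AlgebraicClosure K ⊗[K] M) E' =
        algebraMap K (AlgebraicClosure K) (LinearMap.trace K M E) :=
      LinearMap.trace_baseChange E (AlgebraicClosure K)
    rw [e1, e2, map_natCast] at e3
    exact_mod_cast e3
  rw [h3] at h
  exact h.trans (Nat.mul_le_mul_right _ h1)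

end res

end Pool.Agent.V8H87.WG
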