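import Pool.Agent.V8H87.WG.Main
import Pool.Agent.V8H87.WG.Rep2
import Pool.Agent.H447R3.AoC

/-!
# The standard conjecture B and the ranks of the powers
-/

set_option autoImplicit false

open CategoryTheory AlgebraicGeometry

universe u v

namespace Pool.Agent.V8H87.WG

open Module
open Pool.Agent.H914 Pool.Agent.H914.VarClass Pool.Agent.H914.VarClass.Obj
  Pool.Agent.H914.WeilCohomology Pool.Agent.H447 Pool.Agent.Y133.Half Pool.Agent.W534

variable {k : Type u} [Field k] {𝒱 : VarClass k} {ops : CycleOps 𝒱}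
  {W : WeilCohomology.{u, v} ops} {X Y Z : 𝒱.Obj}

/-- A Lefschetz triple of algebraic operators. -/
structure Lef (W : WeilCohomology.{u, v} ops) (Z : 𝒱.Obj) (L f : Module.End W.K (W.H Z)) :
    Prop where
  hL : L ∈ KOp W Z Z 1
  hf : f ∈ KOp W Z Z (-1)
  t : Sl2 (Hw W Z) L f

lemma Lef.of_B {D : X.Cycles} (hD : X.IsCyc 1 D) (hHL : HardLefschetz W X D)
    (hB : LefschetzB W X D) : ∃ L f, Lef W X L f := by
  have h := W.isInternal X
  have hLR := rop_mulLeft (W := W) hD
  have hLh : IsHom (W.gr X) 2 (LinearMap.mulLeft W.K (W.cl X D)) := by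
    simpa using rop_opAlg.hom hLR
  have hOA := rop_opAlg (W := W) (X := X)
  obtain ⟨f, t, -, hfv⟩ := exists_sl2 h hLh W_hbd hHL
  obtain ⟨Φ, hΦ, hLam⟩ := lefschetzB_iff_rop.1 hB
  have hfR := lower_of_lam hOA h W_hbd hLR hHL hΦ hLam hfv
  exact ⟨_, f, mem_KS_iff.1 (Submodule.subset_span hLR), mem_KS_iff.1 (Submodule.subset_span hfR),
    t⟩

lemma Dm_add (a b : Module.End W.K (W.H X)) (m : ℕ) :
    Dm W X (a + b) m = Dm W X a m + Dm W X b m := by
  induction m with
  | zero => rfl
  | succ m ih =>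
    rw [Dm_succ, Dm_succ, Dm_succ, ih, extOp_add_left, extOp_add_right]
    abel

lemma ext_sub_left (c d : Module.End W.K (W.H X)) :
    extOp W (c - d) (1 : Module.End W.K (W.H Y)) = extOp W c 1 - extOp W d 1 := by
  have e : c - d = c + (-1 : W.K) • d := by module
  rw [e, extOp_add_left, extOp_smul_left]
  module

lemma ext_sub_right (c d : Module.End W.K (W.H Y)) :
    extOp W (1 : Module.End W.K (W.H X)) (c - d) =
      extOp W (1 : Module.End W.K (W.H X)) c - extOp W (1 : Module.End W.K (W.H X)) d := by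
  have e : c - d = c + (-1 : W.K) • d := by module
  rw [e, extOp_add_right, extOp_smul_right]
  module

lemma ext_comm (A B : Module.End W.K (W.H X)) (a b : Module.End W.K (W.H Y)) :
    extOp W (A * B - B * A) (1 : Module.End W.K (W.H Y)) +
      extOp W (1 : Module.End W.K (W.H X)) (a * b - b * a) =
    (extOp W A (1 : Module.End W.K (W.H Y)) + extOp W (1 : Module.End W.K (W.H X)) a) *
      (extOp W B (1 : Module.End W.K (W.H Y)) + extOp W (1 : Module.End W.K (W.H X)) b) -
    (extOp W B (1 : Module.End W.K (W.H Y)) + extOp W (1 : Module.End W.K (W.H X)) b) *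
      (extOp W A (1 : Module.End W.K (W.H Y)) + extOp W (1 : Module.End W.K (W.H X)) a) := by
  rw [ext_sub_left, ext_sub_right, mul_add, add_mul, add_mul, mul_add, add_mul, add_mul]
  simp only [extOp_mul, mul_one, one_mul]
  abel

lemma Dm_comm (a b : Module.End W.K (W.H X)) (m : ℕ) :
    Dm W X (a * b - b * a) m = Dm W X a m * Dm W X b m - Dm W X b m * Dm W X a m := by
  induction m with
  | zero => rfl
  | succ m ih =>
    have h := ext_comm (W := W) (Dm W X a m) (Dm W X b m) a b
    rw [← ih] at h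
    exact h

lemma Dm_mem' {d : ℤ} {T : Module.End W.K (W.H X)} (hT : T ∈ KOp W X X d) (m : ℕ) :
    Dm W X T m ∈ KOp W (pw X m) (pw X m) d := by
  induction m with
  | zero => exact hT
  | succ m ih =>
    rw [Dm_succ]
    exact Submodule.add_mem _ (KOp.cast (KOp.ext ih KOp0_one) (by ring))
      (KOp.cast (KOp.ext KOp0_one hT) (by ring))

lemma Lef.pw {L f : Module.End W.K (W.H X)} (h : Lef W X L f) (m : ℕ) :
    Lef W (pw X m) (Dm W X L m) (Dm W X f m) where
  hL := Dm_mem' h.hL m
  hf := Dm_mem' h.hf m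
  t := by
    refine ⟨?_, ?_, ?_⟩
    · rw [← Dm_comm, h.t.ef, Dm_Hw]
    · rw [← Dm_Hw, ← Dm_comm, h.t.he, two_mul, Dm_add, two_mul]
    · rw [← Dm_Hw, ← Dm_comm, h.t.hf, two_mul]
      have e : -(f + f) = 0 - (f + f) := by abel
      have e0 : Dm W X (0 : Module.End W.K (W.H X)) m = 0 := by
        have := Dm_sub (W := W) (0 : Module.End W.K (W.H X)) 0 m
        rwa [sub_zero, sub_self] at this
      rw [e, Dm_sub, Dm_add, e0, two_mul]
      abel

lemma KOp_pow {d : ℤ} {x : Module.End W.K (W.H Z)} (hx : x ∈ KOp W Z Z d) (r : ℕ) :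
    x ^ r ∈ KOp W Z Z (r * d) := by
  induction r with
  | zero => rw [pow_zero]; exact KOp.cast KOp0_one (by simp)
  | succ r ih =>
    rw [pow_succ]
    refine KOp.cast (KOp.comp ih hx) ?_
    push_cast
    ring

lemma Lef.Hw_mem {L f : Module.End W.K (W.H Z)} (h : Lef W Z L f) : Hw W Z ∈ KOp W Z Z 0 := by
  rw [← h.t.ef]
  exact Submodule.sub_mem _ (KOp.cast (KOp.comp h.hL h.hf) (by ring))
    (KOp.cast (KOp.comp h.hf h.hL) (by ring))

lemma proj_mem_KOp (h : Hw W Z ∈ KOp W Z Z 0) (i : ℕ) :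
    proj (W.isInternal Z) i ∈ KOp W Z Z 0 := by
  obtain ⟨γ, hγ, hγ'⟩ := kunneth_of_Hw h i
  have h1 : W.corr γ = proj (W.isInternal Z) i := by
    rw [← isProjTo_iff]
    exact hγ'
  rw [← h1, mem_KOp_iff]
  exact ⟨γ, by rw [add_zero]; exact hγ, rfl⟩

lemma aeval_mem_KOp {x : Module.End W.K (W.H Z)} (hx : x ∈ KOp W Z Z 0) (p : Polynomial W.K) :
    Polynomial.aeval x p ∈ KOp W Z Z 0 := by
  induction p using Polynomial.induction_on' with
  | add p q hp hq => rw [map_add]; exact Submodule.add_mem _ hp hq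
  | monomial r c =>
    rw [Polynomial.aeval_monomial, Algebra.algebraMap_eq_smul_one, smul_mul_assoc, one_mul]
    exact Submodule.smul_mem _ _ (KOp0_pow hx r)

lemma gr_of_hom {d : ℤ} {x : Module.End W.K (W.H Z)} (hx : x ∈ KOp W Z Z d) {i j : ℕ}
    (hij : (j : ℤ) = i + 2 * d) {a : W.H Z} (ha : a ∈ W.gr Z i) : x a ∈ W.gr Z j := by
  have := KOp.isHom hx i a (by rw [grZ_natCast]; exact ha)
  rwa [← hij, grZ_natCast] at this

lemma Lef.inj_L {L f : Module.End W.K (W.H Z)} (h : Lef W Z L f) {d i : ℕ} (hi : i + d = Z.dim)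
    {a : W.H Z} (ha : a ∈ W.gr Z i) (h0 : (L ^ d) a = 0) : a = 0 := by
  refine e_pow_inj h.t (c := d) ?_ h0
  rw [Hw_apply ha]
  congr 1
  rw [← hi]
  push_cast
  ring

lemma Lef.inj_f {L f : Module.End W.K (W.H Z)} (h : Lef W Z L f) {d i : ℕ} (hi : i = Z.dim + d)
    {a : W.H Z} (ha : a ∈ W.gr Z i) (h0 : (f ^ d) a = 0) : a = 0 := by
  refine f_pow_inj h.t (c := d) ?_ h0
  rw [Hw_apply ha]
  congr 1
  rw [hi]
  push_cast
  ring

/-- The algebraic inverse of the powers of the Lefschetz operator. -/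
lemma Lef.exists_inv {L f : Module.End W.K (W.H Z)} (h : Lef W Z L f) {d i : ℕ}
    (hi : i + d = Z.dim) : ∃ Ψ ∈ KOp W Z Z (-(d : ℤ)), ∀ a ∈ W.gr Z i, Ψ ((L ^ d) a) = a := by
  have hM : f ^ d * L ^ d ∈ KOp W Z Z 0 :=
    KOp.cast (KOp.comp (KOp_pow h.hf d) (KOp_pow h.hL d)) (by ring)
  obtain ⟨q, hq⟩ := exists_inv_on (E := f ^ d * L ^ d) (S := W.gr Z i)
    (fun x hx => gr_of_hom hM (by ring) hx)
    (fun x hx h0 => by
      rw [Module.End.mul_apply] at h0
      have h1 : (L ^ d) x ∈ W.gr Z (Z.dim + d) :=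
        gr_of_hom (KOp_pow h.hL d) (by push_cast; omega) hx
      exact h.inj_L hi hx (h.inj_f rfl h1 h0))
  refine ⟨Polynomial.aeval (f ^ d * L ^ d) q * f ^ d,
    KOp.cast (KOp.comp (aeval_mem_KOp hM q) (KOp_pow h.hf d)) (by ring), fun a ha => ?_⟩
  rw [Module.End.mul_apply]
  exact hq a ha

lemma KOp_map (g : X ⟶ Y) : (W.map g).toLinearMap ∈ KOp W Y X 0 := by
  have h : W.corr (W.cl _ (ops.push (Obj.lift g (𝟙 X)) X.V.fundCycle)) =
      (W.map g).toLinearMap := by
    apply LinearMap.ext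
    intro a
    rw [W.cl_push, W.cl_fund, corr_apply, ← W.push_mul, one_mul, ← W.map_comp, ← W.push_comp,
      Obj.lift_fst, Obj.lift_snd, W.push_id]
    rfl
  rw [← h]
  exact KOp.gen (p := Y.dim) (by simp) (ops.push_mem _ X.V.fundCycle_mem (by rw [dim_prod]; omega))

/-- **The lower bound for the numerical ranks.** -/
theorem Lef.rank {L f : Module.End W.K (W.H Z)} (h : Lef W Z L f) {N : ℕ}
    {ρ : Equiv.Perm (Fin N) →* Module.End W.K (W.H Z)} (hρ : ∀ σ, ρ σ ∈ KOp W Z Z 0) {d i : ℕ}
    (hi : i + d = Z.dim) :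
    finrank W.K (Submodule.span W.K
      (Set.range fun σ => ρ σ * proj (W.isInternal Z) i)) ≤ kRank W (Z.prod Z) (Z.dim + d) i := by
  classical
  set E := proj (W.isInternal Z) i with hE
  have hEK : E ∈ KOp W Z Z 0 := proj_mem_KOp h.Hw_mem i
  have hEE : E * E = E := proj_mul_proj _ _
  have hρE : ∀ σ, ρ σ * E = E * ρ σ := fun σ => ((KOp0_isHom (hρ σ)).proj_comm _ _).symm
  obtain ⟨Ψ, hΨ, hΨL⟩ := h.exists_inv hi
  set A := Submodule.span W.K (Set.range fun σ => ρ σ * E) with hA
  have hρK : ∀ y ∈ Submodule.span W.K (Set.range ρ), y ∈ KOp W Z Z 0 := by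
    intro y hy
    refine (Submodule.span_le.2 ?_) hy
    rintro _ ⟨σ, rfl⟩
    exact hρ σ
  have hAy : ∀ a ∈ A, ∃ y ∈ Submodule.span W.K (Set.range ρ), y * E = a := by
    intro a ha
    have h1 : A = (Submodule.span W.K (Set.range ρ)).map (LinearMap.mulRight W.K E) := by
      rw [hA, Submodule.map_span, ← Set.range_comp]
      rfl
    rw [h1] at ha
    exact ha
  have hAfin : FiniteDimensional W.K A := inferInstance
  rw [kRank]
  refine finrank_le_of_lift (A := A) (pair W (Z.prod Z) (Z.dim + d) i)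
    ((Pool.Agent.Y133.Half.corrL W Z Z) ∘ₗ (spanCycles W (Z.prod Z) ((Z.dim + d : ℕ) : ℤ)).subtype)
    ((LinearMap.mulLeft W.K (L ^ d)) ∘ₗ A.subtype) ?_ ?_
  · intro a
    obtain ⟨y, hy, hya⟩ := hAy a a.2
    have h1 : L ^ d * (a : Module.End W.K (W.H Z)) ∈ KOp W Z Z (d : ℤ) := by
      rw [← hya]
      exact KOp.cast (KOp.comp (KOp_pow h.hL d) (KOp.comp (hρK y hy) hEK)) (by ring)
    obtain ⟨γ, hγ, hγ'⟩ := mem_KOp_iff.1 h1
    exact ⟨⟨γ, by push_cast; exact hγ⟩, hγ'⟩
  · intro s a h2' h1
    have h2 : W.corr (s : W.H (Z.prod Z)) = L ^ d * (a : Module.End W.K (W.H Z)) := h2'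
    obtain ⟨y, hy, hya⟩ := hAy a a.2
    have h3 : y * E = 0 := by
      refine nondeg_perm hρE hEE hy fun x hx => ?_
      -- pair with the class of `x Ψ`
      have h4 : x * Ψ ∈ KOp W Z Z (-(d : ℤ)) := KOp.cast (KOp.comp (hρK x hx) hΨ) (by ring)
      obtain ⟨δ, hδ, hδ'⟩ := mem_KOp_iff.1 h4
      have hδ2 : W.map (swap Z Z) δ ∈ spanCycles W (Z.prod Z) (i : ℤ) := by
        have := swap_span hδ
        have e : (Z.dim : ℤ) + -(d : ℤ) = i := by omega
        rwa [e] at this
      have h5 := congrArg (fun F => F ⟨_, hδ2⟩) h1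
      simp only [pair_apply, LinearMap.zero_apply] at h5
      rw [← trace_corr_corr, h2, hδ', ← hya] at h5
      change LinearMap.trace W.K (W.H Z) (par (W.isInternal Z) *
        ((L ^ d * (y * E)) * (x * Ψ))) = 0 at h5
      have h6 : LinearMap.trace W.K (W.H Z) (par (W.isInternal Z) *
          ((L ^ d * (y * E)) * (x * Ψ))) =
          LinearMap.trace W.K (W.H Z) (par (W.isInternal Z) * (x * y * E)) := by
        have hΨh : IsHom (W.gr Z) (2 * (-(d : ℤ))) Ψ := KOp.isHom hΨ
        have e1 : par (W.isInternal Z) * Ψ = Ψ * par (W.isInternal Z) :=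
          hΨh.par_comm (W.isInternal Z)
        have e2 : Ψ * (L ^ d * E) = E := by
          apply LinearMap.ext
          intro v
          rw [Module.End.mul_apply, Module.End.mul_apply]
          exact hΨL _ (H914.proj_mem _ _ _)
        have e3 : y * E = E * y := span_comm hρE hy
        have e4 : x * E = E * x := span_comm hρE hx
        calc LinearMap.trace W.K (W.H Z) (par (W.isInternal Z) * ((L ^ d * (y * E)) * (x * Ψ)))
            = LinearMap.trace W.K (W.H Z) ((par (W.isInternal Z) * (L ^ d * (y * E)) * x) * Ψ) := by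
              simp only [mul_assoc]
          _ = LinearMap.trace W.K (W.H Z)
                (Ψ * (par (W.isInternal Z) * (L ^ d * (y * E)) * x)) :=
              LinearMap.trace_mul_comm _ _ _
          _ = LinearMap.trace W.K (W.H Z)
                (par (W.isInternal Z) * ((Ψ * (L ^ d * E)) * (y * x))) := by
              congr 1
              rw [e3]
              simp only [← mul_assoc]
              rw [← e1]
          _ = LinearMap.trace W.K (W.H Z) (par (W.isInternal Z) * (E * y * x)) := by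
              rw [e2]
              simp only [mul_assoc]
          _ = LinearMap.trace W.K (W.H Z) ((par (W.isInternal Z) * (E * y)) * x) := by
              simp only [mul_assoc]
          _ = LinearMap.trace W.K (W.H Z) (x * (par (W.isInternal Z) * (E * y))) :=
              LinearMap.trace_mul_comm _ _ _
          _ = _ := by
              have e5 : par (W.isInternal Z) * x = x * par (W.isInternal Z) := by
                have := KOp.isHom (hρK x hx)
                exact IsHom.par_comm (W.isInternal Z) (d := 0) this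
              congr 1
              rw [← mul_assoc, ← e5, ← e3]
              simp only [mul_assoc]
      rw [h6] at h5
      have h7 : par (W.isInternal Z) * (x * y * E) = (-1 : W.K) ^ i • (x * y * E) := by
        have e3 : x * y * E = E * (x * y) := by
          rw [mul_assoc, span_comm hρE hy, ← mul_assoc, span_comm hρE hx, mul_assoc]
        rw [e3]
        apply LinearMap.ext
        intro v
        rw [Module.End.mul_apply, LinearMap.smul_apply, par, Module.End.mul_apply,
          scal_apply _ _ (H914.proj_mem _ _ _)]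
      rw [h7, map_smul] at h5
      exact (smul_eq_zero.1 h5).resolve_left (pow_ne_zero _ (by norm_num))
    exact Subtype.ext (hya.symm.trans h3)

end Pool.Agent.V8H87.WG
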