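import Pool.Agent.V8H87.WG.B1

/-!
# The lower bound for the generating function
-/

set_option autoImplicit false

open CategoryTheory AlgebraicGeometry

universe u v

namespace Pool.Agent.V8H87.WG

open Module
open Pool.Agent.H914 Pool.Agent.H914.VarClass Pool.Agent.H914.VarClass.Obj
  Pool.Agent.H914.WeilCohomology Pool.Agent.H447 Pool.Agent.Y133.Half Pool.Agent.W534

variable {k : Type u} [Field k] {𝒱 : VarClass k} {ops : CycleOps 𝒱}
  {W : WeilCohomology.{u, v} ops} {X Y Z Z' : 𝒱.Obj}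

/-- There is a basis of homogeneous classes. -/
lemma exists_grbasis (W : WeilCohomology.{u, v} ops) (X : 𝒱.Obj) :
    ∃ (b : Basis (Fin (finrank W.K (W.H X))) W.K (W.H X))
      (f : Fin (finrank W.K (W.H X)) → Fin (2 * X.dim + 1)), ∀ s, b s ∈ W.gr X (f s) := by
  obtain ⟨b, f, h⟩ := exists_adapted (PP W X) PP_mul PP_sum
  refine ⟨b, f, fun s => ?_⟩
  rw [← h s]
  exact H914.proj_mem _ _ _

lemma wb_gr {B : ℕ} (b : Basis (Fin B) W.K (W.H X)) (f : Fin B → ℕ)
    (hb : ∀ s, b s ∈ W.gr X (f s)) (m : ℕ) (w : Fin (m + 1) → Fin B) :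
    wb b m w ∈ W.gr (pw X m) (∑ i, f (w i)) := by
  induction m with
  | zero =>
    rw [wb_zero, Fin.sum_univ_one]
    exact hb (w 0)
  | succ m ih =>
    rw [wb_succ, Fin.sum_univ_castSucc]
    exact W.mul_mem (W.map_mem _ (ih fun i => w i.castSucc)) (W.map_mem _ (hb _))

/-- The Betti numbers of the powers and words. -/
lemma card_le_betti {B : ℕ} (b : Basis (Fin B) W.K (W.H X)) (f : Fin B → ℕ)
    (hb : ∀ s, b s ∈ W.gr X (f s)) (m j : ℕ) :
    (Finset.univ.filter fun w : Fin (m + 1) → Fin B => ∑ i, f (w i) = j).card ≤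
      W.betti (pw X m) j := by
  classical
  have hli : LinearIndependent W.K (fun w : {w : Fin (m + 1) → Fin B // ∑ i, f (w i) = j} =>
      (⟨wb b m w.1, by have := wb_gr b f hb m w.1; rwa [w.2] at this⟩ : W.gr (pw X m) j)) := by
    apply LinearIndependent.of_comp (W.gr (pw X m) j).subtype
    exact (wb b m).linearIndependent.comp _ Subtype.val_injective
  have := hli.fintype_card_le_finrank
  rw [Fintype.card_subtype] at this
  exact this

lemma sum_words_nat {σ : Type*} [Fintype σ] (f : σ → ℕ) (n : ℕ) (t : ℝ) :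
    ∑ w : Fin n → σ, t ^ (∑ i, f (w i)) = (∑ s, t ^ f s) ^ n := by
  rw [Fintype.sum_pow]
  refine Finset.sum_congr rfl fun w _ => ?_
  rw [Finset.prod_pow_eq_pow_sum]

/-- The Poincaré polynomial of a power. -/
lemma poincare_le (W : WeilCohomology.{u, v} ops) (X : 𝒱.Obj) (m : ℕ) {t : ℝ} (ht : 0 < t) :
    (∑ i ∈ Finset.range (2 * X.dim + 1), (W.betti X i : ℝ) * t ^ i) ^ (m + 1) ≤
      ∑ j ∈ Finset.range (2 * (pw X m).dim + 1), (W.betti (pw X m) j : ℝ) * t ^ j := by
  classical
  obtain ⟨b, f, hb⟩ := exists_grbasis W X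
  have h1 : ∑ i ∈ Finset.range (2 * X.dim + 1), (W.betti X i : ℝ) * t ^ i =
      ∑ s, t ^ ((f s : ℕ)) := by
    rw [Finset.sum_range, ← Finset.sum_fiberwise Finset.univ f]
    refine Finset.sum_congr rfl fun i _ => ?_
    have h2 : W.betti X i = (Finset.univ.filter fun s => f s = i).card := by
      have e1 : LinearMap.trace W.K (W.H X) (PP W X i) =
          ∑ s, if f s = i then (1 : W.K) else 0 := by
        apply trace_diag b
        intro s
        rw [PP]
        split_ifs with hs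
        · rw [one_smul, ← hs]; exact proj_same _ (hb s)
        · rw [zero_smul]
          exact proj_ne _ (hb s) fun h' => hs (Fin.ext h')
      rw [PP, trace_proj, Finset.sum_ite, Finset.sum_const_zero, add_zero, Finset.sum_const,
        nsmul_eq_mul, mul_one] at e1
      rw [betti]
      exact_mod_cast e1
    rw [h2, ← nsmul_eq_mul, ← Finset.sum_const]
    refine Finset.sum_congr rfl fun s hs => ?_
    rw [(Finset.mem_filter.1 hs).2]
  rw [h1, ← sum_words_nat]
  have h3 : ∀ w : Fin (m + 1) → Fin (finrank W.K (W.H X)),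
      (∑ i, ((f (w i)) : ℕ)) ∈ Finset.range (2 * (pw X m).dim + 1) := by
    intro w
    rw [Finset.mem_range, dim_pw]
    have : ∑ i, ((f (w i)) : ℕ) ≤ ∑ _i : Fin (m + 1), 2 * X.dim :=
      Finset.sum_le_sum fun i _ => by have := (f (w i)).2; omega
    rw [Finset.sum_const, Finset.card_fin, smul_eq_mul] at this
    nlinarith
  rw [← Finset.sum_fiberwise_of_maps_to (fun w _ => h3 w)]
  refine Finset.sum_le_sum fun j _ => ?_
  have h4 : ∀ w ∈ Finset.univ.filter (fun w : Fin (m + 1) → Fin (finrank W.K (W.H X)) =>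
      (∑ i, ((f (w i)) : ℕ)) = j), t ^ (∑ i, ((f (w i)) : ℕ)) = t ^ j := by
    intro w hw
    rw [(Finset.mem_filter.1 hw).2]
  rw [Finset.sum_congr rfl h4, Finset.sum_const, nsmul_eq_mul]
  refine mul_le_mul_of_nonneg_right ?_ (pow_nonneg ht.le _)
  exact_mod_cast card_le_betti b (fun s => (f s : ℕ)) hb m j

/-- The squares of the Betti numbers of a power. -/
theorem betti_sq_le {L f : Module.End W.K (W.H X)} (h : Lef W X L f) (m : ℕ) {j : ℕ}
    (hj : j ≤ 2 * (pw X m).dim) :
    W.betti (pw X m) j ^ 2 ≤ numRank ops ((pw X m).prod (pw X m)) j *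
      (m + 2) ^ (finrank W.K (W.H X) ^ 2) := by
  have hZ := h.pw m
  obtain ⟨b, g, hb⟩ := exists_grbasis W X
  have hρ : ∀ σ, rho W X m σ ∈ KOp W (pw X m) (pw X m) 0 := fun σ => KOp_map _
  -- the bound for a degree below the middle
  have key : ∀ d i, i + d = (pw X m).dim → W.betti (pw X m) i ^ 2 ≤
      kRank W ((pw X m).prod (pw X m)) ((pw X m).dim + d) i *
        (m + 2) ^ (finrank W.K (W.H X) ^ 2) := by
    intro d i hi
    have h1 := hZ.rank hρ hi
    have h2 := span_res (wb b m) (ρ := rho W X m)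
      (tau_wb b (fun s => ⟨_, PH.of (hb s)⟩) m) (E := proj (W.isInternal (pw X m)) i)
      (fun σ => ((KOp0_isHom (hρ σ)).proj_comm _ _).symm) (proj_mul_proj _ _)
    rw [range_proj, Fintype.card_fin] at h2
    exact h2.trans (Nat.mul_le_mul_right _ h1)
  have hdim : ((pw X m).prod (pw X m)).dim = (pw X m).dim + (pw X m).dim := dim_prod _ _
  rw [numRank_eq (W := W) (by rw [hdim]; omega), hdim]
  rcases le_total j (pw X m).dim with hjN | hjN
  · have h1 := key ((pw X m).dim - j) j (by omega)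
    rw [kRank_symm] at h1
    have e : (pw X m).dim + ((pw X m).dim - j) = (pw X m).dim + (pw X m).dim - j := by omega
    rwa [e] at h1
  · have h1 := key (j - (pw X m).dim) ((pw X m).dim + (pw X m).dim - j) (by omega)
    have e : (pw X m).dim + (j - (pw X m).dim) = j := by omega
    rw [e] at h1
    refine le_trans (Nat.pow_le_pow_left ?_ 2) h1
    -- the Betti numbers in complementary degrees
    rw [betti, betti]
    have hmap : ∀ x ∈ W.gr (pw X m) j, ((Dm W X f m) ^ (j - (pw X m).dim)) x ∈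
        W.gr (pw X m) ((pw X m).dim + (pw X m).dim - j) := fun x hx =>
      gr_of_hom (i := j) (j := (pw X m).dim + (pw X m).dim - j) (KOp_pow hZ.hf _) (by omega) hx
    refine LinearMap.finrank_le_finrank_of_injective
      (f := ((Dm W X f m) ^ (j - (pw X m).dim)).restrict hmap) ?_
    rw [← LinearMap.ker_eq_bot, LinearMap.ker_eq_bot']
    intro x hx
    apply Subtype.ext
    refine hZ.inj_f (d := j - (pw X m).dim) (by omega) x.2 ?_
    exact congrArg Subtype.val hx

/-- Numerical ranks under isomorphisms. -/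
theorem kRank_iso (θ : Z' ≅ Z) (hd : Z'.dim = Z.dim) (j l : ℕ) :
    kRank W Z j l ≤ kRank W Z' j l := by
  have hspan : ∀ (q : ℕ) (x : W.H Z), x ∈ spanCycles W Z q → W.map θ.hom x ∈
      spanCycles W Z' q := by
    intro q x hx
    induction hx using Submodule.span_induction with
    | mem x hx =>
      obtain ⟨p, hp, z, hz, rfl⟩ := hx
      rw [← W.cl_pull]
      exact Submodule.subset_span ⟨p, hp, _, ops.pull_mem _ hz, rfl⟩
    | zero => rw [map_zero]; exact Submodule.zero_mem _
    | add a b _ _ ha hb => rw [map_add]; exact Submodule.add_mem _ ha hb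
    | smul c a _ ha => rw [map_smul]; exact Submodule.smul_mem _ _ ha
  have hinv : ∀ x : W.H Z', W.map θ.hom (W.map θ.inv x) = x := by
    intro x
    rw [← W.map_comp, θ.hom_inv_id, W.map_id]
  set w : W.H Z := W.push θ.hom 1 with hw
  set v : W.H Z := W.map θ.inv (W.push θ.inv 1) with hv
  have hwv : w * v = 1 := by
    have h1 : W.push θ.hom (W.push θ.inv (1 : W.H Z)) = 1 := by
      rw [← W.push_comp, θ.inv_hom_id, W.push_id]
    have h2 : W.push θ.inv (1 : W.H Z) = 1 * W.map θ.hom v := by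
      rw [hv, hinv, one_mul]
    rw [h2, W.push_mul] at h1
    exact h1
  have hv0 : v ∈ W.gr Z 0 := by
    have h1 := W.push_mem θ.inv (W.one_mem Z)
    rw [hd, sub_self, mul_zero, add_zero, grZ_natCast] at h1
    exact W.map_mem _ h1
  obtain ⟨c, hc⟩ : ∃ c : W.K, c • (1 : W.H Z) = v := by
    rw [W.gr_zero] at hv0
    exact Submodule.mem_span_singleton.1 hv0
  let Θ : spanCycles W Z (j : ℤ) →ₗ[W.K] spanCycles W Z' (j : ℤ) :=
    (W.map θ.hom).toLinearMap.restrict fun x hx => hspan j x hx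
  have hker : LinearMap.ker (pair W Z' j l ∘ₗ Θ) ≤ LinearMap.ker (pair W Z j l) := by
    intro x hx
    rw [LinearMap.mem_ker] at hx ⊢
    apply LinearMap.ext
    intro y
    rw [pair_apply, LinearMap.zero_apply]
    have h1 : (c • (y : W.H Z)) ∈ spanCycles W Z (l : ℤ) := Submodule.smul_mem _ _ y.2
    have h2 := congrArg (fun F => F ⟨_, hspan l _ h1⟩) hx
    have h3 : W.tr Z' (W.map θ.hom (x : W.H Z) * W.map θ.hom (c • (y : W.H Z))) = 0 := h2
    rw [← map_mul, ← one_mul (W.map θ.hom _), ← W.tr_push, ← hw] at h3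
    have h4 : (x : W.H Z) * y = w * ((x : W.H Z) * (c • (y : W.H Z))) := by
      have h5 : (x : W.H Z) * (c • (y : W.H Z)) = v * ((x : W.H Z) * y) := by
        rw [← hc, smul_mul_assoc, one_mul, mul_smul_comm]
      rw [h5, ← mul_assoc, hwv, one_mul]
    rw [h4]
    exact h3
  have h1 : finrank W.K (LinearMap.range (pair W Z j l)) ≤
      finrank W.K (LinearMap.range (pair W Z' j l ∘ₗ Θ)) := by
    have e1 := LinearMap.finrank_range_add_finrank_ker (pair W Z j l)
    have e2 := LinearMap.finrank_range_add_finrank_ker (pair W Z' j l ∘ₗ Θ)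
    have e3 := Submodule.finrank_mono hker
    omega
  have h2 : LinearMap.range (pair W Z' j l ∘ₗ Θ) ≤ LinearMap.range (pair W Z' j l) :=
    LinearMap.range_comp_le_range _ _
  exact h1.trans (Submodule.finrank_mono h2)

/-- **The lower bound.** -/
theorem lower {D : X.Cycles} (hD : X.IsCyc 1 D) (hHL : HardLefschetz W X D)
    (hB : LefschetzB W X D) (m : ℕ) {t : ℝ} (ht : 0 < t) :
    (∑ i ∈ Finset.range (2 * X.dim + 1), (W.betti X i : ℝ) * t ^ i) ^ (2 * m + 2) ≤
      ((2 * (m + 1) * X.dim + 1) * (m + 2) ^ (finrank W.K (W.H X) ^ 2)) *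
        ∑ j ∈ Finset.range ((pw X (2 * m + 1)).dim + 1),
          (numRank ops (pw X (2 * m + 1)) j : ℝ) * t ^ (2 * j) := by
  obtain ⟨L, f, h⟩ := Lef.of_B hD hHL hB
  have hdim : ((pw X m).prod (pw X m)).dim = (pw X m).dim + (pw X m).dim := dim_prod _ _
  have hdim2 : (pw X (2 * m + 1)).dim = 2 * (pw X m).dim := by
    rw [dim_pw, dim_pw]
    ring
  have h1 := poincare_le W X m ht
  set P := ∑ i ∈ Finset.range (2 * X.dim + 1), (W.betti X i : ℝ) * t ^ i with hP
  have hP0 : 0 ≤ P := Finset.sum_nonneg fun i _ => mul_nonneg (Nat.cast_nonneg _)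
    (pow_nonneg ht.le _)
  have h2 : P ^ (2 * m + 2) ≤
      (∑ j ∈ Finset.range (2 * (pw X m).dim + 1), (W.betti (pw X m) j : ℝ) * t ^ j) ^ 2 := by
    have e : P ^ (2 * m + 2) = (P ^ (m + 1)) ^ 2 := by rw [← pow_mul]; congr 1; ring
    rw [e]
    exact pow_le_pow_left₀ (pow_nonneg hP0 _) h1 2
  have h3 := sq_sum_le_card_mul_sum_sq (s := Finset.range (2 * (pw X m).dim + 1))
    (f := fun j => (W.betti (pw X m) j : ℝ) * t ^ j)
  rw [Finset.card_range] at h3
  have h4 : ∀ j ∈ Finset.range (2 * (pw X m).dim + 1),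
      ((W.betti (pw X m) j : ℝ) * t ^ j) ^ 2 ≤
        (m + 2) ^ (finrank W.K (W.H X) ^ 2) *
          ((numRank ops (pw X (2 * m + 1)) j : ℝ) * t ^ (2 * j)) := by
    intro j hj
    have hj' : j ≤ 2 * (pw X m).dim := by have := Finset.mem_range.1 hj; omega
    have h5 := betti_sq_le h m hj'
    have h6 : numRank ops ((pw X m).prod (pw X m)) j ≤ numRank ops (pw X (2 * m + 1)) j := by
      have e0 : m + m + 1 = 2 * m + 1 := by ring
      rw [numRank_eq (W := W) (by rw [hdim]; omega), numRank_eq (W := W) (by rw [hdim2]; omega),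
        hdim, hdim2, ← two_mul]
      have θ : pw X (2 * m + 1) ≅ (pw X m).prod (pw X m) :=
        eqToIso (congrArg (pw X) e0.symm) ≪≫ (pwAdd X m m).symm
      exact kRank_iso θ (by rw [hdim, hdim2, two_mul]) _ _
    have h7 : (W.betti (pw X m) j : ℝ) ^ 2 ≤ (numRank ops (pw X (2 * m + 1)) j : ℝ) *
        (m + 2) ^ (finrank W.K (W.H X) ^ 2) := by
      have := h5.trans (Nat.mul_le_mul_right _ h6)
      exact_mod_cast this
    rw [mul_pow, ← pow_mul, mul_comm j 2]
    calc (W.betti (pw X m) j : ℝ) ^ 2 * t ^ (2 * j)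
        ≤ ((numRank ops (pw X (2 * m + 1)) j : ℝ) * (m + 2) ^ (finrank W.K (W.H X) ^ 2)) *
            t ^ (2 * j) := mul_le_mul_of_nonneg_right h7 (pow_nonneg ht.le _)
      _ = _ := by ring
  have h5 := Finset.sum_le_sum h4
  rw [← Finset.mul_sum] at h5
  refine (h2.trans h3).trans ?_
  have h6 : ((2 * (pw X m).dim + 1 : ℕ) : ℝ) = 2 * (m + 1) * X.dim + 1 := by
    rw [dim_pw]
    push_cast
    ring
  rw [h6, hdim2]
  calc (2 * ((m : ℝ) + 1) * X.dim + 1) *
      ∑ j ∈ Finset.range (2 * (pw X m).dim + 1), ((W.betti (pw X m) j : ℝ) * t ^ j) ^ 2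
      ≤ (2 * ((m : ℝ) + 1) * X.dim + 1) * ((m + 2) ^ (finrank W.K (W.H X) ^ 2) *
          ∑ j ∈ Finset.range (2 * (pw X m).dim + 1),
            (numRank ops (pw X (2 * m + 1)) j : ℝ) * t ^ (2 * j)) :=
        mul_le_mul_of_nonneg_left h5 (by positivity)
    _ = _ := by ring

end Pool.Agent.V8H87.WG
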