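import Pool.Agent.H914R2.KDefs
import Pool.Agent.H447R3.SpDefs

/-!
# The sign conjecture and the Künneth conjecture: definitions
-/

open CategoryTheory AlgebraicGeometry

universe u v

namespace Pool.Agent.V8H87.WG

open Pool.Agent.H914 Pool.Agent.H914.VarClass Pool.Agent.H914.VarClass.Obj
  Pool.Agent.H914.WeilCohomology Pool.Agent.H447

variable {k : Type u} [Field k] {𝒱 : VarClass k} {ops : CycleOps 𝒱}

/-- The sign conjecture for `X`: the projector onto the sum of the cohomology groups of even degree
is induced by a linear combination, with coefficients in the coefficient field of the cohomology, of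
classes of algebraic cycles on `X × X`. -/
def SignConj (W : WeilCohomology.{u, v} ops) (X : 𝒱.Obj) : Prop :=
  ∃ γ ∈ spanCycles W (X.prod X) X.dim, IsEvenProj (W.gr X) (W.corr γ)

/-- The conjecture `C(X)`: for all `i` the projector onto `H^i(X)` is induced by a linear
combination, with coefficients in the coefficient field of the cohomology, of classes of algebraic
cycles on `X × X`; that is, all Künneth components of the diagonal of `X` are algebraic. -/
def KunnethConj (W : WeilCohomology.{u, v} ops) (X : 𝒱.Obj) : Prop :=
  ∀ i, ∃ γ ∈ spanCycles W (X.prod X) X.dim, IsProjector (W.gr X) i (W.corr γ)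

end Pool.Agent.V8H87.WG
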