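import Pool.Agent.X310.Spec

/-!
# Bases adapted to an operator with given traces and to commuting idempotents
-/

set_option autoImplicit false
set_option linter.unusedSectionVars false

open Polynomial LinearMap Module

namespace Pool.Agent.V8H87.WG

open Pool.Agent.X310 (eigs mem_eigs bc bc_apply bc_inj trace_bc exists_spectral eq_of_power_sums)

section Adapted

variable {K V A : Type*} [Field K] [AddCommGroup V] [Module K V] [Module.Finite K V] [Fintype A]
  [DecidableEq A]

/-- A basis adapted to a complete family of orthogonal idempotents. -/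
lemma exists_adapted (Q : A → End K V) (hQ : ∀ a b, Q a * Q b = if a = b then Q a else 0)
    (hs : ∑ a, Q a = 1) :
    ∃ (b : Basis (Fin (finrank K V)) K V) (f : Fin (finrank K V) → A),
      ∀ s, Q (f s) (b s) = b s := by
  classical
  have hone : ∀ v : V, ∑ a, Q a v = v := fun v => by
    have := congrArg (fun g : End K V => g v) hs
    simpa using this
  have hfix : ∀ a (x : LinearMap.range (Q a)) (c : A), Q c (x : V) = if c = a then (x : V) else 0 := by
    rintro a ⟨_, v, rfl⟩ c
    have h1 := congrArg (fun g : End K V => g v) (hQ c a)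
    simp only [Module.End.mul_apply] at h1
    rw [h1]
    split_ifs with h
    · rw [h]
    · rfl
  let e : V ≃ₗ[K] (∀ a, LinearMap.range (Q a)) :=
    { toFun := fun v a => ⟨Q a v, v, rfl⟩
      map_add' := fun v w => by
        funext a
        apply Subtype.ext
        exact map_add (Q a) v w
      map_smul' := fun c v => by
        funext a
        apply Subtype.ext
        exact map_smul (Q a) c v
      invFun := fun x => ∑ a, (x a : V)
      left_inv := fun v => hone v
      right_inv := fun x => by
        funext a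
        apply Subtype.ext
        change Q a (∑ c, (x c : V)) = x a
        rw [map_sum, Finset.sum_eq_single a]
        · rw [hfix, if_pos rfl]
        · intro c _ hc
          rw [hfix, if_neg hc.symm]
        · intro h
          exact absurd (Finset.mem_univ a) h }
  let b0 : Basis ((a : A) × Fin (finrank K (LinearMap.range (Q a)))) K V :=
    (Pi.basis fun a => Module.finBasis K (LinearMap.range (Q a))).map e.symm
  have hb0 : ∀ x, Q x.1 (b0 x) = b0 x := by
    intro x
    have h1 : b0 x = ((Module.finBasis K (LinearMap.range (Q x.1)) x.2 : LinearMap.range (Q x.1)) : V) := by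
      change e.symm ((Pi.basis fun a => Module.finBasis K (LinearMap.range (Q a))) x) = _
      rw [LinearEquiv.symm_apply_eq]
      funext a
      apply Subtype.ext
      change _ = Q a _
      rw [hfix]
      obtain ⟨a', i⟩ := x
      rw [Pi.basis_apply]
      by_cases h : a = a'
      · subst h
        rw [if_pos rfl, Pi.single_eq_same]
      · rw [if_neg h, Pi.single_eq_of_ne h]
        rfl
    rw [h1, hfix, if_pos rfl]
  have hcard : Fintype.card ((a : A) × Fin (finrank K (LinearMap.range (Q a)))) = finrank K V :=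
    (Module.finrank_eq_card_basis b0).symm
  let g := Fintype.equivFinOfCardEq hcard
  refine ⟨b0.reindex g, fun s => (g.symm s).1, fun s => ?_⟩
  rw [Basis.reindex_apply]
  exact hb0 _

end Adapted

section Main

variable {K V ι : Type*} [Field K] [CharZero K] [AddCommGroup V] [Module K V] [Module.Finite K V]
  [Fintype ι] [DecidableEq ι]

/-- The trace identities: for the two classes of indices the traces of `c ^ (r + 1)` are the weighted
sums of the traces of `P i * c ^ r`. -/
def TrId (c : End K V) (P : ι → End K V) (β : ι → Bool) (w : ι → ℚ) : Prop :=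
  ∀ (x : Bool) (r : ℕ), ∑ i with β i = x, trace K V (P i * c ^ (r + 1)) =
    ∑ i with β i = x, (w i : K) * trace K V (P i * c ^ r)

lemma rational_eigs {c : End K V} {P : ι → End K V} (hc : ∀ i, Commute c (P i))
    (hP : ∀ i, IsIdempotentElem (P i)) (hsum : ∑ i, P i = 1) {β : ι → Bool} {w : ι → ℚ}
    (htr : TrId c P β w) : ∀ α ∈ eigs (bc K c), ∃ q : ℚ, α = (q : AlgebraicClosure K) := by
  classical
  have hchar : CharZero (AlgebraicClosure K) :=
    charZero_of_injective_algebraMap (algebraMap K (AlgebraicClosure K)).injective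
  obtain ⟨d, h1, h2, -⟩ := exists_spectral (bc K c) (fun i => bc K (P i))
    (fun i => (hc i).map (bc K)) (fun i => by
      change bc K (P i) * bc K (P i) = bc K (P i)
      rw [← map_mul, (hP i).eq]) (by rw [← map_sum, hsum, map_one])
  have hT : ∀ i r, algebraMap K (AlgebraicClosure K) (trace K V (P i * c ^ r)) =
      ∑ α ∈ eigs (bc K c), α ^ r * (d i α : AlgebraicClosure K) := by
    intro i r
    have h4 := h1 i (X ^ r)
    rw [map_pow, aeval_X, ← map_pow, ← map_mul, trace_bc] at h4
    rw [h4]
    exact Finset.sum_congr rfl fun α _ => by rw [eval_pow, eval_X]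
  have hkey : ∀ (x : Bool), ∀ α ∈ eigs (bc K c), α * ∑ i with β i = x, (d i α : AlgebraicClosure K) =
      ∑ i with β i = x, (w i : AlgebraicClosure K) * (d i α : AlgebraicClosure K) := by
    intro x
    refine eq_of_power_sums (eigs (bc K c)) _ _ fun r => ?_
    have h5 := congrArg (algebraMap K (AlgebraicClosure K)) (htr x r)
    rw [map_sum, map_sum] at h5
    simp only [map_mul, map_ratCast, hT] at h5
    have e1 : ∑ α ∈ eigs (bc K c), α ^ r * (α * ∑ i with β i = x, (d i α : AlgebraicClosure K)) =
        ∑ i with β i = x, ∑ α ∈ eigs (bc K c), α ^ (r + 1) * (d i α : AlgebraicClosure K) := by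
      simp only [Finset.mul_sum]
      rw [Finset.sum_comm]
      exact Finset.sum_congr rfl fun i _ => Finset.sum_congr rfl fun α _ => by
        rw [pow_succ, mul_assoc]
    have e2 : ∑ α ∈ eigs (bc K c), α ^ r *
        ∑ i with β i = x, (w i : AlgebraicClosure K) * (d i α : AlgebraicClosure K) =
        ∑ i with β i = x, (w i : AlgebraicClosure K) *
          ∑ α ∈ eigs (bc K c), α ^ r * (d i α : AlgebraicClosure K) := by
      simp only [Finset.mul_sum]
      rw [Finset.sum_comm]
      exact Finset.sum_congr rfl fun i _ => Finset.sum_congr rfl fun α _ => by ring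
    rw [e1, e2, h5]
  intro α hα
  obtain ⟨x, hx⟩ : ∃ x : Bool, (∑ i with β i = x, d i α) ≠ 0 := by
    by_contra hcon
    push Not at hcon
    have h6 := h2 α hα
    have h7 : ∑ i, d i α = 0 := by
      have := Finset.sum_fiberwise (Finset.univ : Finset ι) β (fun i => d i α)
      rw [← this]
      exact Finset.sum_eq_zero fun x _ => hcon x
    omega
  refine ⟨(∑ i with β i = x, w i * (d i α : ℚ)) / (∑ i with β i = x, (d i α : ℚ)), ?_⟩
  have h8 : ((∑ i with β i = x, (d i α : ℚ) : ℚ) : AlgebraicClosure K) ≠ 0 := by
    have : (∑ i with β i = x, (d i α : ℚ)) ≠ 0 := by exact_mod_cast hx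
    exact_mod_cast this
  rw [Rat.cast_div, eq_div_iff h8]
  have h9 := hkey x α hα
  push_cast
  exact h9

/-- A semisimple operator with rational eigenvalues. -/
lemma exists_finset {S : End K V} (hs : S.IsSemisimple)
    (hrat : ∀ α ∈ eigs (bc K S), ∃ q : ℚ, α = (q : AlgebraicClosure K)) :
    ∃ Λ : Finset ℚ, aeval S (∏ l ∈ Λ, (X - C (l : K))) = 0 := by
  classical
  let L := AlgebraicClosure K
  have hchar : CharZero L := charZero_of_injective_algebraMap (algebraMap K L).injective
  set m := minpoly K S with hm
  have hmon : m.Monic := minpoly.monic (Algebra.IsIntegral.isIntegral S)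
  have hsq : Squarefree m := hs.minpoly_squarefree
  have hsep : m.Separable := PerfectField.separable_iff_squarefree.2 hsq
  set m' := m.map (algebraMap K L) with hm'
  have hmon' : m'.Monic := hmon.map _
  have hnd : m'.roots.Nodup := nodup_roots (hsep.map)
  have hspl : m'.Splits := IsAlgClosed.splits m'
  have hrat' : ∀ α ∈ m'.roots.toFinset, ∃ q : ℚ, α = (q : L) := by
    intro α hα
    rw [Multiset.mem_toFinset, mem_roots hmon'.ne_zero] at hα
    refine hrat α (mem_eigs.2 ?_)
    have h1 : (bc K S).HasEigenvalue α := by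
      rw [Module.End.hasEigenvalue_iff_isRoot_charpoly, bc_apply, LinearMap.charpoly_baseChange]
      exact IsRoot.dvd hα (Polynomial.map_dvd _ (LinearMap.minpoly_dvd_charpoly S))
    intro hbot
    obtain ⟨v, hv⟩ := h1.exists_hasEigenvector
    have h8 : v ∈ (bc K S).maxGenEigenspace α := by
      rw [Module.End.mem_maxGenEigenspace]
      refine ⟨1, ?_⟩
      rw [pow_one, LinearMap.sub_apply, hv.apply_eq_smul]
      simp
    rw [hbot] at h8
    exact hv.2 ((Submodule.mem_bot _).1 h8)
  choose! g hg using hrat'
  refine ⟨m'.roots.toFinset.image g, ?_⟩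
  have hinj : Set.InjOn g (m'.roots.toFinset : Set L) := by
    intro a ha b hb hab
    rw [hg a ha, hg b hb, hab]
  rw [Finset.prod_image hinj]
  suffices h : (∏ α ∈ m'.roots.toFinset, (X - C ((g α : ℚ) : K))) = m by
    rw [h, hm, minpoly.aeval]
  apply Polynomial.map_injective (algebraMap K L) (algebraMap K L).injective
  rw [Polynomial.map_prod, ← hm']
  have h1 : m' = (m'.roots.map fun a => X - C a).prod := hspl.eq_prod_roots_of_monic hmon'
  have h2 : (m'.roots.map fun a => X - C a).prod = ∏ α ∈ m'.roots.toFinset, (X - C α) := by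
    rw [Finset.prod, Multiset.toFinset_val, hnd.dedup]
  conv_rhs => rw [h1, h2]
  refine Finset.prod_congr rfl fun α hα => ?_
  rw [Polynomial.map_sub, map_X, map_C, map_ratCast, ← hg α hα]

/-- Polynomials with the same values on the eigenvalues. -/
lemma aeval_eq {S : End K V} {Λ : Finset ℚ} (hΛ : aeval S (∏ l ∈ Λ, (X - C (l : K))) = 0)
    {f g : K[X]} (hfg : ∀ l ∈ Λ, f.eval (l : K) = g.eval (l : K)) : aeval S f = aeval S g := by
  obtain ⟨q, hq⟩ : ∏ l ∈ Λ, (X - C (l : K)) ∣ f - g := by
    apply Finset.prod_dvd_of_coprime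
    · intro a _ b _ hab
      refine isCoprime_X_sub_C_of_isUnit_sub (sub_ne_zero.2 ?_).isUnit
      exact_mod_cast hab
    · intro l hl
      refine dvd_iff_isRoot.2 ?_
      rw [IsRoot.def, eval_sub, hfg l hl, sub_self]
  rw [← sub_eq_zero, ← map_sub, hq, map_mul, hΛ, zero_mul]

/-- The trace of an operator which is diagonal in a basis. -/
lemma trace_diag {N : ℕ} (b : Basis (Fin N) K V) (T : End K V) (f : Fin N → K)
    (h : ∀ s, T (b s) = f s • b s) : trace K V T = ∑ s, f s := by
  rw [LinearMap.trace_eq_matrix_trace K b, Matrix.trace]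
  refine Finset.sum_congr rfl fun s _ => ?_
  rw [Matrix.diag_apply, LinearMap.toMatrix_apply, h, map_smul, Finsupp.smul_apply, Basis.repr_self,
    Finsupp.single_eq_same, smul_eq_mul, mul_one]

/-- **The adapted basis.** -/
theorem exists_basis {T : End K V} {P : ι → End K V} (hc : ∀ i, Commute T (P i))
    (hP : ∀ i j, P i * P j = if i = j then P i else 0) (hsum : ∑ i, P i = 1) {β : ι → Bool}
    {w : ι → ℚ} (htr : TrId T P β w) :
    ∃ (S : End K V) (b : Basis (Fin (finrank K V)) K V) (i : Fin (finrank K V) → ι)
      (l : Fin (finrank K V) → ℚ), S ∈ Algebra.adjoin K {T} ∧ IsNilpotent (T - S) ∧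
      (∀ s, S (b s) = (l s : K) • b s) ∧ (∀ s, P (i s) (b s) = b s) ∧
      ∀ (x : Bool) (q : ℚ), ∑ s with (l s = q ∧ β (i s) = x), (w (i s) - q) = 0 := by
  classical
  obtain ⟨N, hN, S, hS, hNn, hSs, hTS⟩ := Module.End.exists_isNilpotent_isSemisimple (f := T)
  have hTN : T - S = N := by rw [hTS]; abel
  have hadj : ∀ {Y Z : End K V}, Y ∈ Algebra.adjoin K {T} → Commute T Z → Commute Y Z := by
    intro Y Z hY hZ
    induction hY using Algebra.adjoin_induction with
    | mem x hx => rw [Set.mem_singleton_iff.1 hx]; exact hZ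
    | algebraMap r => exact Algebra.commute_algebraMap_left r Z
    | add x y _ _ hx hy => exact hx.add_left hy
    | mul x y _ _ hx hy => exact hx.mul_left hy
  have hSP : ∀ i, Commute S (P i) := fun i => hadj hS (hc i)
  have hNP : ∀ i, Commute N (P i) := fun i => hadj hN (hc i)
  have hST : Commute S T := hadj hS (Commute.refl T)
  have hNS : Commute N S := hadj hN hST.symm
  have hNT : Commute N T := hadj hN (Commute.refl T)
  have hpow : ∀ i r, trace K V (P i * T ^ r) = trace K V (P i * S ^ r) := by
    intro i r
    rw [← sub_eq_zero, ← map_sub, ← mul_sub, ← hST.symm.mul_geom_sum₂, hTN, ← mul_assoc,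
      ← (hNP i).eq, mul_assoc]
    have h1 : Commute N (P i * ∑ j ∈ Finset.range r, T ^ j * S ^ (r - 1 - j)) := by
      refine (hNP i).mul_right (Commute.sum_right _ _ _ fun j _ => ?_)
      exact (hNT.pow_right _).mul_right (hNS.pow_right _)
    exact (LinearMap.isNilpotent_trace_of_isNilpotent (h1.isNilpotent_mul_right hNn)).eq_zero
  have htrS : TrId S P β w := by
    intro x r
    have := htr x r
    simp only [hpow] at this
    exact this
  have hidem : ∀ i, IsIdempotentElem (P i) := fun i => by
    rw [IsIdempotentElem, hP, if_pos rfl]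
  obtain ⟨Λ, hΛ⟩ := exists_finset hSs (rational_eigs hSP hidem hsum htrS)
  -- the Lagrange projectors
  let E : Λ → End K V := fun l => aeval S (Lagrange.basis Λ (fun q : ℚ => (q : K)) l)
  have hinj : Set.InjOn (fun q : ℚ => (q : K)) (Λ : Set ℚ) := fun a _ b _ h => by
    have h' : (a : K) = (b : K) := h
    exact_mod_cast h'
  have hev : ∀ (l m : Λ), (Lagrange.basis Λ (fun q : ℚ => (q : K)) (l : ℚ)).eval ((m : ℚ) : K) =
      if l = m then 1 else 0 := by
    intro l m
    split_ifs with h
    · rw [h]
      exact Lagrange.eval_basis_self (v := fun q : ℚ => (q : K)) hinj m.2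
    · exact Lagrange.eval_basis_of_ne (v := fun q : ℚ => (q : K)) (fun h' => h (Subtype.ext h')) m.2
  have hE : ∀ l m, E l * E m = if l = m then E l else 0 := by
    intro l m
    change aeval S _ * aeval S _ = _
    rw [← map_mul]
    split_ifs with h
    · subst h
      refine aeval_eq hΛ fun q hq => ?_
      have := hev l ⟨q, hq⟩
      rw [eval_mul]
      simp only at this
      rw [this]
      split_ifs <;> simp
    · rw [← map_zero (aeval S : K[X] →ₐ[K] End K V)]
      refine aeval_eq hΛ fun q hq => ?_
      have h1 := hev l ⟨q, hq⟩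
      have h2 := hev m ⟨q, hq⟩
      simp only at h1 h2
      rw [eval_mul, h1, h2, eval_zero]
      split_ifs with h3 h4
      · exact absurd (h3.trans h4.symm) h
      · simp
      · simp
      · simp
  have hEs : ∑ l, E l = 1 := by
    change ∑ l : Λ, aeval S _ = _
    rw [← map_sum, ← map_one (aeval S : K[X] →ₐ[K] End K V)]
    refine aeval_eq hΛ fun q hq => ?_
    rw [eval_finsetSum, eval_one, Finset.sum_eq_single (⟨q, hq⟩ : Λ)]
    · have := hev ⟨q, hq⟩ ⟨q, hq⟩
      rw [if_pos rfl] at this
      exact this
    · intro m _ hm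
      have := hev m ⟨q, hq⟩
      rw [if_neg hm] at this
      exact this
    · intro h
      exact absurd (Finset.mem_univ _) h
  have hSE : ∀ l : Λ, S * E l = ((l : ℚ) : K) • E l := by
    intro l
    have h2 : ((l : ℚ) : K) • E l = aeval S (C ((l : ℚ) : K) *
        Lagrange.basis Λ (fun q : ℚ => (q : K)) (l : ℚ)) := by
      rw [map_mul, aeval_C, Algebra.algebraMap_eq_smul_one, smul_mul_assoc, one_mul]
    have h1 : S * E l = aeval S (X * Lagrange.basis Λ (fun q : ℚ => (q : K)) (l : ℚ)) := by
      rw [map_mul, aeval_X]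
    rw [h1, h2]
    refine aeval_eq hΛ fun q hq => ?_
    have h3 := hev l ⟨q, hq⟩
    simp only at h3
    rw [eval_mul, eval_mul, h3, eval_X, eval_C]
    split_ifs with h4
    · rw [h4]
    · simp
  have hSadj : ∀ g : K[X], aeval S g ∈ Algebra.adjoin K {S} := fun g => aeval_mem_adjoin_singleton K S
  have hPE : ∀ i l, Commute (P i) (E l) := by
    intro i l
    have h1 : ∀ Y ∈ Algebra.adjoin K {S}, Commute Y (P i) := by
      intro Y hY
      induction hY using Algebra.adjoin_induction with
      | mem x hx => rw [Set.mem_singleton_iff.1 hx]; exact hSP i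
      | algebraMap r => exact Algebra.commute_algebraMap_left r _
      | add x y _ _ hx hy => exact hx.add_left hy
      | mul x y _ _ hx hy => exact hx.mul_left hy
    exact (h1 _ (hSadj _)).symm
  obtain ⟨b, f, hbf⟩ := exists_adapted (fun a : ι × Λ => P a.1 * E a.2) (by
    rintro ⟨i, l⟩ ⟨j, m⟩
    change P i * E l * (P j * E m) = _
    rw [mul_assoc, ← mul_assoc (E l), ← (hPE j l).eq, mul_assoc, ← mul_assoc, hP, hE]
    by_cases h1 : i = j
    · by_cases h2 : l = m
      · rw [if_pos h1, if_pos h2, if_pos (by rw [h1, h2])]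
      · rw [if_neg h2, mul_zero, if_neg (fun h => h2 (Prod.ext_iff.1 h).2)]
    · rw [if_neg h1, zero_mul, if_neg (fun h => h1 (Prod.ext_iff.1 h).1)])
    (by
      rw [Fintype.sum_prod_type]
      simp only [← Finset.mul_sum, hEs, mul_one, hsum])
  have hb1 : ∀ s i, P i (b s) = if i = (f s).1 then b s else 0 := by
    intro s i
    have h1 := hbf s
    conv_lhs => rw [← h1]
    change (P i * (P (f s).1 * E (f s).2)) (b s) = _
    rw [← mul_assoc, hP]
    split_ifs with h
    · rw [h]; exact h1
    · rw [zero_mul]; rfl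
  have hb2 : ∀ s, E (f s).2 (b s) = b s := by
    intro s
    have h1 := hbf s
    conv_lhs => rw [← h1]
    change (E (f s).2 * (P (f s).1 * E (f s).2)) (b s) = _
    rw [← mul_assoc, ← (hPE _ _).eq, mul_assoc, hE, if_pos rfl]
    exact h1
  have hb3 : ∀ s, S (b s) = (((f s).2 : ℚ) : K) • b s := by
    intro s
    conv_lhs => rw [← hb2 s]
    rw [← Module.End.mul_apply, hSE, LinearMap.smul_apply, hb2]
  have hb4 : ∀ s (r : ℕ), (S ^ r) (b s) = ((((f s).2 : ℚ) : K) ^ r) • b s := by
    intro s r
    induction r with
    | zero => rw [pow_zero, pow_zero, one_smul]; rfl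
    | succ r ih => rw [pow_succ', Module.End.mul_apply, ih, map_smul, hb3, smul_smul, pow_succ]
  refine ⟨S, b, fun s => (f s).1, fun s => ((f s).2 : ℚ), hS, by rw [hTN]; exact hNn, hb3,
    fun s => by rw [hb1, if_pos rfl], fun x => ?_⟩
  -- the balance
  have htrace : ∀ i r, trace K V (P i * S ^ r) =
      ∑ s, if i = (f s).1 then ((((f s).2 : ℚ) : K) ^ r) else 0 := by
    intro i r
    apply trace_diag b
    intro s
    rw [Module.End.mul_apply, hb4, map_smul, hb1]
    split_ifs
    · rfl
    · rw [smul_zero, zero_smul]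
  have hbal : ∀ r : ℕ, ∑ s with β (f s).1 = x, (((f s).2 : ℚ) ^ r) * (w (f s).1 - ((f s).2 : ℚ)) = 0 := by
    intro r
    have h1 := htrS x r
    simp only [htrace, Finset.mul_sum] at h1
    rw [Finset.sum_comm, Finset.sum_comm (s := Finset.univ.filter fun i => β i = x)] at h1
    have h2 : ∀ (g : ι → K) (s : Fin (finrank K V)), (∑ i with β i = x, if i = (f s).1 then g i else 0) =
        if β (f s).1 = x then g (f s).1 else 0 := by
      intro g s
      rw [Finset.sum_filter]
      rw [Finset.sum_eq_single (f s).1]
      · rw [if_pos rfl]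
      · intro j _ hj
        rw [if_neg hj]
        split_ifs <;> rfl
      · intro h
        exact absurd (Finset.mem_univ _) h
    have h3 : ∀ s : Fin (finrank K V), (∑ i with β i = x, (if i = (f s).1 then ((((f s).2 : ℚ) : K) ^ (r + 1))
        else 0)) = if β (f s).1 = x then ((((f s).2 : ℚ) : K) ^ (r + 1)) else 0 := fun s => h2 _ s
    have h4 : ∀ s : Fin (finrank K V), (∑ i with β i = x, (w i : K) * (if i = (f s).1 then
        ((((f s).2 : ℚ) : K) ^ r) else 0)) = if β (f s).1 = x then (w (f s).1 : K) *
          ((((f s).2 : ℚ) : K) ^ r) else 0 := by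
      intro s
      simp only [mul_ite, mul_zero]
      exact h2 (fun i => (w i : K) * ((((f s).2 : ℚ) : K) ^ r)) s
    simp only [h3, h4] at h1
    rw [← Finset.sum_filter, ← Finset.sum_filter] at h1
    have h5 : ((∑ s with β (f s).1 = x, (((f s).2 : ℚ) ^ r) * (w (f s).1 - ((f s).2 : ℚ)) : ℚ) : K) = 0 := by
      push_cast
      rw [← sub_eq_zero, ← Finset.sum_sub_distrib] at h1
      rw [← neg_eq_zero, ← Finset.sum_neg_distrib, ← h1]
      refine Finset.sum_congr rfl fun s _ => ?_
      ring
    exact_mod_cast h5
  intro q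
  by_cases hq : ∃ s, ((f s).2 : ℚ) = q
  · have h6 := eq_of_power_sums (L := ℚ) (Finset.univ.image fun s => ((f s).2 : ℚ))
      (fun q => ∑ s with (((f s).2 : ℚ) = q ∧ β (f s).1 = x), (w (f s).1 - q)) (fun _ => 0) (by
        intro r
        simp only [mul_zero, Finset.sum_const_zero]
        rw [← hbal r]
        simp only [Finset.mul_sum]
        have h7 : ∀ q ∈ Finset.univ.image fun s => ((f s).2 : ℚ),
            ∑ s with (((f s).2 : ℚ) = q ∧ β (f s).1 = x), q ^ r * (w (f s).1 - q) =
            ∑ s ∈ (Finset.univ.filter fun s => β (f s).1 = x) with ((f s).2 : ℚ) = q,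
              (((f s).2 : ℚ) ^ r) * (w (f s).1 - ((f s).2 : ℚ)) := by
          intro q _
          rw [Finset.filter_filter]
          refine Finset.sum_congr ?_ fun s hs => ?_
          · ext s
            simp only [Finset.mem_filter, Finset.mem_univ, true_and]
            exact and_comm
          · rw [(Finset.mem_filter.1 hs).2.2]
        rw [Finset.sum_congr rfl h7]
        exact Finset.sum_fiberwise_of_maps_to (fun s _ => Finset.mem_image_of_mem _ (Finset.mem_univ s))
          _) q (by
        obtain ⟨s, hs⟩ := hq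
        exact Finset.mem_image.2 ⟨s, Finset.mem_univ s, hs⟩)
    exact h6
  · push Not at hq
    apply Finset.sum_eq_zero
    intro s hs
    exact absurd (Finset.mem_filter.1 hs).2.1 (hq s)

end Main

end Pool.Agent.V8H87.WG
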