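import Pool.Agent.V8H87.WG.Rep
import Pool.Agent.V8H87.WG.Lin
import Pool.Agent.V8H87.WG.Defs
import Pool.Agent.H447R3.KuB
import Pool.Agent.Y133.Half.TateSys

/-!
# The operator with the traces of the weight operator
-/

set_option autoImplicit false

open CategoryTheory AlgebraicGeometry

universe u v

namespace Pool.Agent.V8H87.WG

open Module
open Pool.Agent.H914 Pool.Agent.H914.VarClass Pool.Agent.H914.VarClass.Obj
  Pool.Agent.H914.WeilCohomology Pool.Agent.H447 Pool.Agent.Y133.Half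
  Pool.Agent.W536.RR Pool.Agent.H281R3.HT

variable {k : Type u} [Field k] {𝒱 : VarClass k} {ops : CycleOps 𝒱}
  {W : WeilCohomology.{u, v} ops} {X Y Z P Q M N : 𝒱.Obj}

/-- The weight operator. -/
noncomputable def Hw (W : WeilCohomology.{u, v} ops) (X : 𝒱.Obj) : Module.End W.K (W.H X) :=
  wt (W.isInternal X) X.dim

lemma Hw_apply {i : ℕ} {a : W.H X} (ha : a ∈ W.gr X i) :
    Hw W X a = ((i : W.K) - X.dim) • a := by
  rw [Hw, wt, scal_apply _ _ ha, node]
  push_cast
  rfl

lemma KOp0_mul {x y : Module.End W.K (W.H X)} (hx : x ∈ KOp W X X 0) (hy : y ∈ KOp W X X 0) :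
    x * y ∈ KOp W X X 0 := KOp.cast (KOp.comp hx hy) (by ring)

lemma KOp0_one : (1 : Module.End W.K (W.H X)) ∈ KOp W X X 0 := KOp.id X

lemma KOp0_isHom {x : Module.End W.K (W.H X)} (hx : x ∈ KOp W X X 0) : IsHom (W.gr X) 0 x := by
  intro i a ha
  have := KOp.isHom hx i a ha
  rwa [mul_zero] at this

lemma KOp0_pow {x : Module.End W.K (W.H X)} (hx : x ∈ KOp W X X 0) (r : ℕ) :
    x ^ r ∈ KOp W X X 0 := by
  induction r with
  | zero => rw [pow_zero]; exact KOp0_one
  | succ r ih => rw [pow_succ]; exact KOp0_mul ih hx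

lemma hbd (X : 𝒱.Obj) (i : ℕ) (hi : 2 * X.dim + 1 ≤ i) : W.gr X i = ⊥ :=
  W.gr_eq_bot X i (by omega)

/-- The operator with the traces of the weight operator. -/
theorem exists_T0 (W : WeilCohomology.{u, v} ops) (X : 𝒱.Obj) : ∃ T ∈ KOp W X X 0, ∀ y ∈ KOp W X X 0,
    LinearMap.trace W.K (W.H X) (T * y) = LinearMap.trace W.K (W.H X) (Hw W X * y) := by
  refine exists_T (KOp W X X 0) (fun x hx y hy => KOp0_mul hx hy) KOp0_one (Hw W X) ?_
  intro x hx hnil
  rw [Hw, wt, scal_eq_sum (W.isInternal X) (hbd X), Finset.sum_mul, map_sum]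
  refine Finset.sum_eq_zero fun i _ => ?_
  rw [smul_mul_assoc, map_smul]
  have h1 : Commute (proj (W.isInternal X) i) x := (KOp0_isHom hx).proj_comm _ i
  have h2 : IsNilpotent (proj (W.isInternal X) i * x) := h1.isNilpotent_mul_left hnil
  rw [(LinearMap.isNilpotent_trace_of_isNilpotent h2).eq_zero, smul_zero]

lemma trace_of_isHom {x : Module.End W.K (W.H X)} {d : ℤ} (hx : IsHom (W.gr X) d x) (hd : d ≠ 0) :
    LinearMap.trace W.K (W.H X) x = 0 := by
  have h1 := hx.wt_comm (W.isInternal X) X.dim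
  have h2 := congrArg (LinearMap.trace W.K (W.H X)) h1
  rw [map_add, LinearMap.trace_mul_comm, map_smul] at h2
  have h3 : (d : W.K) • LinearMap.trace W.K (W.H X) x = 0 := by
    have := h2
    rw [left_eq_add] at this
    exact this
  rcases smul_eq_zero.1 h3 with h4 | h4
  · exact absurd (by exact_mod_cast h4) hd
  · exact h4

lemma evenProj_mem (h : SignConj W X) : evenProj (W.isInternal X) ∈ KOp W X X 0 := by
  obtain ⟨γ, hγ, hγ'⟩ := h
  rw [← isEvenProj_iff.1 hγ', mem_KOp_iff]
  exact ⟨γ, by rw [add_zero]; exact hγ, rfl⟩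

lemma par_eq : par (W.isInternal X) = (2 : W.K) • evenProj (W.isInternal X) - 1 := by
  apply gr_ext (W.isInternal X)
  intro j a ha
  rw [par, scal_apply _ _ ha, LinearMap.sub_apply, LinearMap.smul_apply, evenProj,
    scal_apply _ _ ha, Module.End.one_apply]
  split_ifs with hj
  · rw [hj.neg_one_pow, one_smul, two_smul, add_sub_cancel_right]
  · rw [(Nat.not_even_iff_odd.1 hj).neg_one_pow, zero_smul, smul_zero, zero_sub, neg_one_smul]

lemma par_mem (h : SignConj W X) : par (W.isInternal X) ∈ KOp W X X 0 := by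
  rw [par_eq]
  exact Submodule.sub_mem _ (Submodule.smul_mem _ _ (evenProj_mem h)) KOp0_one

/-- The difference of the operators has trace zero against all algebraic operators. -/
theorem trace_e (h : SignConj W X) {T : Module.End W.K (W.H X)} (hT : T ∈ KOp W X X 0)
    (hTr : ∀ y ∈ KOp W X X 0,
      LinearMap.trace W.K (W.H X) (T * y) = LinearMap.trace W.K (W.H X) (Hw W X * y))
    {y : W.H X →ₗ[W.K] W.H X} (hy : y ∈ (algSys W).Op X X) :
    LinearMap.trace W.K (W.H X) (par (W.isInternal X) ∘ₗ (T - Hw W X) ∘ₗ y) = 0 := by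
  obtain ⟨γ, hγ, rfl⟩ := Sys.mem_Op.1 hy
  refine algSpan_induction (p := fun γ => LinearMap.trace W.K (W.H X)
    (par (W.isInternal X) ∘ₗ (T - Hw W X) ∘ₗ W.corr γ) = 0) ?_ ?_ ?_ ?_ hγ
  · rw [corr_zero, LinearMap.comp_zero, LinearMap.comp_zero, map_zero]
  · intro a b ha hb
    rw [corr_add, LinearMap.comp_add, LinearMap.comp_add, map_add, ha, hb, add_zero]
  · intro t a ha
    rw [corr_smul, LinearMap.comp_smul, LinearMap.comp_smul, map_smul, ha, smul_zero]
  · intro j z hz
    change LinearMap.trace W.K (W.H X)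
      (par (W.isInternal X) * ((T - Hw W X) * W.corr (W.cl _ z))) = 0
    by_cases hj : j = X.dim
    · have hc : W.corr (W.cl _ z) ∈ KOp W X X 0 := KOp.gen (p := j) (by omega) hz
      set y : Module.End W.K (W.H X) := W.corr (W.cl _ z) with hy
      have hp : y * par (W.isInternal X) ∈ KOp W X X 0 := KOp0_mul hc (par_mem h)
      rw [LinearMap.trace_mul_comm, mul_assoc, sub_mul, map_sub, hTr _ hp, sub_self]
    · have hc : IsHom (W.gr X) (2 * ((j : ℤ) - X.dim)) (W.corr (W.cl _ z)) :=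
        corr_isHom W (W.cl_mem hz)
      have h1 : IsHom (W.gr X) 0 (T - Hw W X) := (KOp0_isHom hT).sub (isHom_scal _ _)
      have h2 : IsHom (W.gr X) 0 (par (W.isInternal X)) := isHom_scal _ _
      refine trace_of_isHom (d := 0 + (0 + 2 * ((j : ℤ) - X.dim))) (h2.mul (h1.mul hc)) ?_
      omega

end Pool.Agent.V8H87.WG
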