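import Pool.Agent.V8H87.WG.Geo1
import Pool.Agent.Y133.Half.Iso2
import Pool.Agent.Y133.Half.Pow

/-!
# Derivations on the cohomology of the powers of a variety
-/

set_option autoImplicit false

open CategoryTheory AlgebraicGeometry

universe u v

namespace Pool.Agent.V8H87.WG

open Module
open Pool.Agent.H914 Pool.Agent.H914.VarClass Pool.Agent.H914.VarClass.Obj
  Pool.Agent.H914.WeilCohomology Pool.Agent.H447 Pool.Agent.Y133.Half

variable {k : Type u} [Field k] {𝒱 : VarClass k} {ops : CycleOps 𝒱}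
  {W : WeilCohomology.{u, v} ops} {X Y Z Z' P Q M N : 𝒱.Obj}

/-- The operator sends the classes of the system to classes which are orthogonal to the system. -/
def Qp (S : Sys W) (E : Module.End W.K (W.H Z)) : Prop :=
  ∀ c ∈ S.C Z, ∀ d ∈ S.C Z, W.tr Z (E c * d) = 0

lemma Qp.add {S : Sys W} {E F : Module.End W.K (W.H Z)} (hE : Qp S E) (hF : Qp S F) :
    Qp S (E + F) := fun c hc d hd => by
  rw [LinearMap.add_apply, add_mul, map_add, hE c hc d hd, hF c hc d hd, add_zero]

lemma Qp.iso {S : Sys W} (θ : Z' ≅ Z) {u : Module.End W.K (W.H Z)} {u' : Module.End W.K (W.H Z')}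
    (h : ∀ x, u' (W.map θ.hom x) = W.map θ.hom (u x)) (hu : Qp S u) : Qp S u' := by
  have hinv : ∀ x : W.H Z', W.map θ.hom (W.map θ.inv x) = x := by
    intro x
    rw [← W.map_comp, θ.hom_inv_id, W.map_id]
  intro c hc d hd
  rw [← hinv c, ← hinv d, h, ← map_mul, ← one_mul (W.map θ.hom _), ← W.tr_push]
  have hw : W.push θ.hom 1 ∈ S.C Z := S.push _ (S.one Z')
  rw [PH.even_comm (S.even hw), mul_assoc]
  exact hu _ (S.map _ hc) _ (S.mul (S.map _ hd) hw)

lemma ev_one : Ev W (1 : Module.End W.K (W.H X)) := Ev.id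

/-- From traces to the product with another variety. -/
lemma Qp.right {S : Sys W} {e : Module.End W.K (W.H X)} (he : Ev W e)
    (h : ∀ y ∈ S.Op X X, LinearMap.trace W.K (W.H X) (par (W.isInternal X) ∘ₗ e ∘ₗ y) = 0)
    (Y : 𝒱.Obj) : Qp S (extOp W (1 : Module.End W.K (W.H Y)) e) := by
  intro c hc d hd
  have h0 : W.map (swap Y X) (W.map (swap X Y) d) = d := swap_swap (X := Y) (Y := X) d
  have h1 : LinearMap.trace W.K (W.H X) (par (W.isInternal X) ∘ₗ
      W.corr (extOp W (1 : Module.End W.K (W.H Y)) e c) ∘ₗ W.corr (W.map (swap X Y) d)) =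
      W.tr (Y.prod X) (extOp W (1 : Module.End W.K (W.H Y)) e c *
        W.map (swap Y X) (W.map (swap X Y) d)) := trace_corr_corr _ _
  rw [h0] at h1
  rw [← h1]
  have h2 : W.corr (extOp W (1 : Module.End W.K (W.H Y)) e c) =
      e ∘ₗ W.corr c ∘ₗ (1 : Module.End W.K (W.H Y)) :=
    corr_extOp (W := W) (a := 1) (a' := 1) (fun a b => rfl) ev_one he c
  have h3 : W.corr c ∘ₗ (1 : Module.End W.K (W.H Y)) = W.corr c := LinearMap.comp_id _
  rw [h2, h3, LinearMap.comp_assoc]
  exact h _ (Sys.Op.comp (Sys.Op.corr hc) (Sys.Op.corr (S.map _ hd)))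

lemma Qp.base {S : Sys W} {e : Module.End W.K (W.H X)} (he : Ev W e)
    (h : ∀ y ∈ S.Op X X, LinearMap.trace W.K (W.H X) (par (W.isInternal X) ∘ₗ e ∘ₗ y) = 0) :
    Qp S e := by
  intro c hc d hd
  have h1 : xp W d c ∈ S.C (X.prod X) := S.mul (S.map _ hd) (S.map _ hc)
  have h2 := h _ (Sys.Op.corr h1)
  have h3 : par (W.isInternal X) ∘ₗ e ∘ₗ W.corr (xp W d c) =
      (W.tr X ∘ₗ LinearMap.mulLeft W.K d).smulRight (e c) := by
    apply gr_ext (W.isInternal X)
    intro q z hz
    have hz' := PH.of (W := W) hz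
    rw [LinearMap.comp_apply, LinearMap.comp_apply, corr_xp d (S.even hc) hz', zero_mul, pow_zero,
      one_mul, map_smul, map_smul, PH.par (he _ _ (S.even hc)), pow_zero, one_smul]
    rfl
  rw [h3, LinearMap.trace_smulRight] at h2
  rw [PH.even_comm (he _ _ (S.even hc))]
  exact h2

section Isos

lemma prodComm_xp {a b : ℕ} {x : W.H X} (hx : x ∈ PH W X a) {y : W.H Y} (hy : y ∈ PH W Y b) :
    W.map (prodComm Y X).hom (xp W x y) = (-1 : W.K) ^ (a * b) • xp W y x := by
  have e1 : (prodComm Y X).hom ≫ fst _ _ = snd _ _ := Obj.lift_fst _ _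
  have e2 : (prodComm Y X).hom ≫ snd _ _ = fst _ _ := Obj.lift_snd _ _
  rw [map_xp, e1, e2, PH.comm (PH.map _ hx) (PH.map _ hy)]
  rfl

lemma prodComm_op {g : Module.End W.K (W.H X)} (hg : Ev W g) (x : W.H (X.prod Y)) :
    extOp W (1 : Module.End W.K (W.H Y)) g (W.map (prodComm Y X).hom x) =
      W.map (prodComm Y X).hom (extOp W g (1 : Module.End W.K (W.H Y)) x) := by
  have h : (extOp W (1 : Module.End W.K (W.H Y)) g) ∘ₗ (W.map (prodComm Y X).hom).toLinearMap =
      (W.map (prodComm Y X).hom).toLinearMap ∘ₗ (extOp W g (1 : Module.End W.K (W.H Y))) := by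
    apply xp_ext
    intro i j a ha b hb
    simp only [LinearMap.comp_apply, AlgHom.toLinearMap_apply, extOp_xp, Module.End.one_apply]
    rw [prodComm_xp ha hb, prodComm_xp (hg _ _ ha) hb, map_smul, extOp_xp]
    simp only [Module.End.one_apply]
  exact congrArg (fun f => f x) h

lemma prodComm_op' {g : Module.End W.K (W.H Y)} (hg : Ev W g) (x : W.H (X.prod Y)) :
    extOp W g (1 : Module.End W.K (W.H X)) (W.map (prodComm Y X).hom x) =
      W.map (prodComm Y X).hom (extOp W (1 : Module.End W.K (W.H X)) g x) := by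
  have h : (extOp W g (1 : Module.End W.K (W.H X))) ∘ₗ (W.map (prodComm Y X).hom).toLinearMap =
      (W.map (prodComm Y X).hom).toLinearMap ∘ₗ (extOp W (1 : Module.End W.K (W.H X)) g) := by
    apply xp_ext
    intro i j a ha b hb
    simp only [LinearMap.comp_apply, AlgHom.toLinearMap_apply, extOp_xp, Module.End.one_apply]
    rw [prodComm_xp ha hb, prodComm_xp ha (hg _ _ hb), map_smul, extOp_xp]
    simp only [Module.End.one_apply]
  exact congrArg (fun f => f x) h

lemma θ₃_op' (g : Module.End W.K (W.H Q)) (x : W.H (P.prod (Q.prod Z))) :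
    extOp W (extOp W (1 : Module.End W.K (W.H P)) g) (1 : Module.End W.K (W.H Z))
      (W.map (θ₃ P Q Z).hom x) =
      W.map (θ₃ P Q Z).hom (extOp W (1 : Module.End W.K (W.H P))
        (extOp W g (1 : Module.End W.K (W.H Z))) x) := by
  have h : (extOp W (extOp W (1 : Module.End W.K (W.H P)) g) (1 : Module.End W.K (W.H Z))) ∘ₗ
      (W.map (θ₃ P Q Z).hom).toLinearMap = (W.map (θ₃ P Q Z).hom).toLinearMap ∘ₗ
        (extOp W (1 : Module.End W.K (W.H P)) (extOp W g (1 : Module.End W.K (W.H Z)))) := by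
    apply xpL_ext
    intro i j l p hp a ha b hb
    simp only [LinearMap.comp_apply, AlgHom.toLinearMap_apply, extOp_xp, Module.End.one_apply]
    rw [θ₃_xp, θ₃_xp, extOp_xp, extOp_xp]
    simp only [Module.End.one_apply]
  exact congrArg (fun f => f x) h

end Isos

/-- The property of an even operator on a factor, for products. -/
def QL (S : Sys W) (E : Module.End W.K (W.H Z)) : Prop :=
  ∀ Y : 𝒱.Obj, Qp S (extOp W E (1 : Module.End W.K (W.H Y)))

lemma QL.base {S : Sys W} {e : Module.End W.K (W.H X)} (he : Ev W e)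
    (h : ∀ Y : 𝒱.Obj, Qp S (extOp W (1 : Module.End W.K (W.H Y)) e)) : QL S e :=
  fun Y => Qp.iso (prodComm X Y) (prodComm_op' (X := Y) (Y := X) he) (h Y)

lemma QL.left {S : Sys W} {E : Module.End W.K (W.H P)} (hE : QL S E) (Q : 𝒱.Obj) :
    QL S (extOp W E (1 : Module.End W.K (W.H Q))) :=
  fun Y => Qp.iso (θ₃ P Q Y) (θ₃_op E) (hE _)

/-- `E` on the second factor of `P × X`, times `Y`. -/
lemma QL.right {S : Sys W} {e : Module.End W.K (W.H X)} (he : Ev W e) (hL : QL S e) (P : 𝒱.Obj) :
    QL S (extOp W (1 : Module.End W.K (W.H P)) e) := by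
  intro Y
  -- first associate, then move `X` to the front, then associate again
  have hX : Qp S (extOp W e (1 : Module.End W.K (W.H (P.prod Y)))) := hL _
  have h2 : Qp S (extOp W (1 : Module.End W.K (W.H P))
      (extOp W e (1 : Module.End W.K (W.H Y)))) :=
    Qp.iso (θ₁ P X Y) (θ₁_op he) hX
  exact Qp.iso (θ₃ P X Y) (θ₃_op' e) h2

/-- The derivation on the cohomology of the power given by an operator. -/
noncomputable def Dm (W : WeilCohomology.{u, v} ops) (X : 𝒱.Obj) (a : Module.End W.K (W.H X)) :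
    ∀ m, Module.End W.K (W.H (pw X m))
  | 0 => a
  | m + 1 => extOp W (Dm W X a m) (1 : Module.End W.K (W.H X)) +
      extOp W (1 : Module.End W.K (W.H (pw X m))) a

lemma Dm_zero (a : Module.End W.K (W.H X)) : Dm W X a 0 = a := rfl

lemma Dm_succ (a : Module.End W.K (W.H X)) (m : ℕ) :
    Dm W X a (m + 1) = (extOp W (Dm W X a m) (1 : Module.End W.K (W.H X)) +
      extOp W (1 : Module.End W.K (W.H (pw X m))) a :
        Module.End W.K (W.H ((pw X m).prod X))) := rfl

lemma QL.add {S : Sys W} {E F : Module.End W.K (W.H Z)} (hE : QL S E) (hF : QL S F) :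
    QL S (E + F) := fun Y => by
  rw [extOp_add_left]
  exact (hE Y).add (hF Y)

/-- The derivation given by an operator which is orthogonal to the algebraic operators. -/
theorem Qp_Dm {S : Sys W} {e : Module.End W.K (W.H X)} (he : Ev W e)
    (h : ∀ y ∈ S.Op X X, LinearMap.trace W.K (W.H X) (par (W.isInternal X) ∘ₗ e ∘ₗ y) = 0)
    (m : ℕ) : Qp S (Dm W X e m) ∧ QL S (Dm W X e m) := by
  have hR := Qp.right he h
  have hL : QL S e := QL.base he hR
  induction m with
  | zero => exact ⟨Qp.base he h, hL⟩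
  | succ m ih => exact ⟨Qp.add (ih.2 X) (hR _), QL.add (ih.2.left X) (QL.right he hL _)⟩

lemma Dm_sub (a b : Module.End W.K (W.H X)) (m : ℕ) :
    Dm W X (a - b) m = Dm W X a m - Dm W X b m := by
  induction m with
  | zero => rfl
  | succ m ih =>
    have h1 : ∀ (c d : Module.End W.K (W.H (pw X m))), extOp W (c - d)
        (1 : Module.End W.K (W.H X)) = extOp W c 1 - extOp W d 1 := by
      intro c d
      have e : c - d = c + (-1 : W.K) • d := by module
      rw [e, extOp_add_left, extOp_smul_left]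
      module
    have h2 : ∀ (c d : Module.End W.K (W.H X)), extOp W (1 : Module.End W.K (W.H (pw X m))) (c - d)
        = extOp W (1 : Module.End W.K (W.H (pw X m))) c -
          extOp W (1 : Module.End W.K (W.H (pw X m))) d := by
      intro c d
      have e : c - d = c + (-1 : W.K) • d := by module
      rw [e, extOp_add_right, extOp_smul_right]
      module
    rw [Dm_succ, Dm_succ, Dm_succ, ih, h1, h2]
    abel

lemma Hw_prod (X Y : 𝒱.Obj) : extOp W (Hw W X) (1 : Module.End W.K (W.H Y)) +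
    extOp W (1 : Module.End W.K (W.H X)) (Hw W Y) = Hw W (X.prod Y) := by
  apply ext_kunneth_lin
  intro a b
  refine gr_induction (W.isInternal X) (p := fun a =>
    (extOp W (Hw W X) (1 : Module.End W.K (W.H Y)) +
      extOp W (1 : Module.End W.K (W.H X)) (Hw W Y)) (W.map (fst X Y) a * W.map (snd X Y) b) =
    Hw W (X.prod Y) (W.map (fst X Y) a * W.map (snd X Y) b)) ?_ ?_ a
  swap
  · intro a a' ha ha'
    rw [map_add, add_mul, map_add, ha, ha', map_add]
  intro i a ha
  refine gr_induction (W.isInternal Y) (p := fun b =>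
    (extOp W (Hw W X) (1 : Module.End W.K (W.H Y)) +
      extOp W (1 : Module.End W.K (W.H X)) (Hw W Y)) (W.map (fst X Y) a * W.map (snd X Y) b) =
    Hw W (X.prod Y) (W.map (fst X Y) a * W.map (snd X Y) b)) ?_ ?_ b
  swap
  · intro b b' hb hb'
    rw [map_add, mul_add, map_add, hb, hb', map_add]
  intro j b hb
  have h1 : W.map (fst X Y) a * W.map (snd X Y) b ∈ W.gr (X.prod Y) (i + j) :=
    W.mul_mem (W.map_mem _ ha) (W.map_mem _ hb)
  rw [LinearMap.add_apply, extOp_tmul, extOp_tmul, Hw_apply ha, Hw_apply hb, Hw_apply h1,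
    Module.End.one_apply, Module.End.one_apply, map_smul, map_smul, smul_mul_assoc, mul_smul_comm,
    ← add_smul, dim_prod]
  congr 1
  push_cast
  ring

lemma Dm_Hw (m : ℕ) : Dm W X (Hw W X) m = Hw W (pw X m) := by
  induction m with
  | zero => rfl
  | succ m ih => rw [Dm_succ, ih]; exact Hw_prod _ _

lemma Dm_mem {T : Module.End W.K (W.H X)} (hT : T ∈ KOp W X X 0) (m : ℕ) :
    Dm W X T m ∈ KOp W (pw X m) (pw X m) 0 := by
  induction m with
  | zero => exact hT
  | succ m ih =>
    rw [Dm_succ]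
    exact Submodule.add_mem _ (KOp.cast (KOp.ext ih KOp0_one) (by ring))
      (KOp.cast (KOp.ext KOp0_one hT) (by ring))

end Pool.Agent.V8H87.WG
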