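import Mathlib

/-!
# Generalised eigenspaces: sums of eigenvalues, counting
-/

set_option autoImplicit false

open Module LinearMap

set_option linter.unusedSectionVars false

namespace Pool.Agent.V8H87.WG

section Add

variable {K A B C : Type*} [Field K] [AddCommGroup A] [Module K A] [AddCommGroup B] [Module K B]
  [AddCommGroup C] [Module K C] {f : Module.End K A} {g : Module.End K B} {h : Module.End K C}
  {β : A →ₗ[K] B →ₗ[K] C}

/-- The product of generalised eigenvectors for a derivation. -/
theorem gen_add (hβ : ∀ a b, h (β a b) = β (f a) b + β a (g b)) {l m : K} {a : A} {b : B}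
    (ha : a ∈ f.maxGenEigenspace l) (hb : b ∈ g.maxGenEigenspace m) :
    β a b ∈ h.maxGenEigenspace (l + m) := by
  have key : ∀ (N i j : ℕ) (a : A) (b : B), i + j ≤ N → ((f - l • 1) ^ i) a = 0 →
      ((g - m • 1) ^ j) b = 0 → ((h - (l + m) • 1) ^ N) (β a b) = 0 := by
    intro N
    induction N with
    | zero =>
      intro i j a b hij ha hb
      obtain rfl : i = 0 := by omega
      rw [pow_zero, Module.End.one_apply] at ha
      rw [ha, map_zero, LinearMap.zero_apply, map_zero]
    | succ N ih =>
      intro i j a b hij ha hb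
      rcases Nat.eq_zero_or_pos i with hi | hi
      · subst hi
        rw [pow_zero, Module.End.one_apply] at ha
        rw [ha, map_zero, LinearMap.zero_apply, map_zero]
      rcases Nat.eq_zero_or_pos j with hj | hj
      · subst hj
        rw [pow_zero, Module.End.one_apply] at hb
        rw [hb, map_zero, map_zero]
      obtain ⟨i', rfl⟩ : ∃ i', i = i' + 1 := ⟨i - 1, by omega⟩
      obtain ⟨j', rfl⟩ : ∃ j', j = j' + 1 := ⟨j - 1, by omega⟩
      have h1 : (h - (l + m) • 1) (β a b) =
          β ((f - l • 1) a) b + β a ((g - m • 1) b) := by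
        simp only [LinearMap.sub_apply, LinearMap.smul_apply, Module.End.one_apply, map_sub,
          map_smul, hβ]
        module
      rw [pow_succ, Module.End.mul_apply, h1, map_add,
        ih i' (j' + 1) _ _ (by omega) _ hb, ih (i' + 1) j' _ _ (by omega) ha _, add_zero]
      · rw [pow_succ, Module.End.mul_apply] at hb
        exact hb
      · rw [pow_succ, Module.End.mul_apply] at ha
        exact ha
  rw [Module.End.mem_maxGenEigenspace] at ha hb ⊢
  obtain ⟨i, hi⟩ := ha
  obtain ⟨j, hj⟩ := hb
  exact ⟨i + j, key _ i j a b le_rfl hi hj⟩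

end Add

section Count

variable {K V : Type*} [Field K] [CharZero K] [AddCommGroup V] [Module K V] [Module.Finite K V]

/-- The dimension of a generalised eigenspace if there is a basis of generalised eigenvectors. -/
theorem finrank_gen_le {κ : Type*} [Fintype κ] (b : Basis κ K V) (D : End K V) (l : κ → ℚ)
    (h : ∀ w, b w ∈ D.maxGenEigenspace (l w : K)) (q : ℚ) :
    finrank K (D.maxGenEigenspace (q : K)) ≤ (Finset.univ.filter fun w => l w = q).card := by
  classical
  have h1 : D.maxGenEigenspace (q : K) ≤ Submodule.span K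
      (((Finset.univ.filter fun w => l w = q).image b : Finset V) : Set V) := by
    intro x hx
    set x₁ := ∑ w with l w = q, b.repr x w • b w with hx₁
    set x₂ := ∑ w with l w ≠ q, b.repr x w • b w with hx₂
    have hsum : x = x₁ + x₂ := by
      rw [hx₁, hx₂, Finset.sum_filter_add_sum_filter_not, b.sum_repr]
    have h2 : x₁ ∈ D.maxGenEigenspace (q : K) := by
      refine Submodule.sum_mem _ fun w hw => Submodule.smul_mem _ _ ?_
      have := h w
      rwa [(Finset.mem_filter.1 hw).2] at this
    have h3 : x₂ ∈ D.maxGenEigenspace (q : K) := by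
      have : x₂ = x - x₁ := by rw [hsum]; abel
      rw [this]
      exact Submodule.sub_mem _ hx h2
    have h4 : x₂ ∈ ⨆ (μ : K) (_ : μ ≠ (q : K)), D.maxGenEigenspace μ := by
      refine Submodule.sum_mem _ fun w hw => Submodule.smul_mem _ _ ?_
      refine Submodule.mem_iSup_of_mem (l w : K) (Submodule.mem_iSup_of_mem ?_ (h w))
      have := (Finset.mem_filter.1 hw).2
      exact_mod_cast this
    have h5 : x₂ = 0 := by
      have hd := (Module.End.independent_maxGenEigenspace D) (q : K)
      exact Submodule.disjoint_def.1 hd _ h3 h4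
    rw [hsum, h5, add_zero]
    refine Submodule.sum_mem _ fun w hw => Submodule.smul_mem _ _ ?_
    exact Submodule.subset_span (Finset.mem_coe.2 (Finset.mem_image_of_mem _ hw))
  refine (Submodule.finrank_mono h1).trans ((finrank_span_finset_le_card _).trans ?_)
  exact Finset.card_image_le

/-- Vectors of a basis adapted to the semisimple part are generalised eigenvectors. -/
lemma mem_gen_of {T S : End K V} (hN : IsNilpotent (T - S)) (hc : Commute T S) {v : V} {l : K}
    (hv : S v = l • v) : v ∈ T.maxGenEigenspace l := by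
  obtain ⟨N, hN⟩ := hN
  rw [Module.End.mem_maxGenEigenspace]
  refine ⟨N, ?_⟩
  have key : ∀ r : ℕ, ((T - l • 1) ^ r) v = ((T - S) ^ r) v := by
    intro r
    induction r with
    | zero => rfl
    | succ r ih =>
      have h1 : (T - l • 1) v = (T - S) v := by
        rw [LinearMap.sub_apply, LinearMap.sub_apply, LinearMap.smul_apply, Module.End.one_apply,
          hv]
      have h2 : Commute ((T - l • 1) ^ r) (T - S) := by
        apply Commute.pow_left
        have h3 : Commute T (T - S) := (Commute.refl T).sub_right hc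
        have h4 : Commute (l • (1 : End K V)) (T - S) := (Commute.one_left _).smul_left l
        exact h3.sub_left h4
      rw [pow_succ, Module.End.mul_apply, h1, ← Module.End.mul_apply, h2.eq, Module.End.mul_apply,
        ih, pow_succ', Module.End.mul_apply]
  rw [key, hN]
  rfl

/-- The rank of a linear map which vanishes on the image of `g`. -/
theorem finrank_range_le_gen {U : Type*} [AddCommGroup U] [Module K U] (C : Submodule K V)
    (D : End K V) (c : K) (hD : ∀ x ∈ C, D x ∈ C) (π : C →ₗ[K] U)
    (hπ : ∀ (x : C) (hx : D x - c • (x : V) ∈ C), π ⟨_, hx⟩ = 0) :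
    finrank K (LinearMap.range π) ≤ finrank K (D.maxGenEigenspace c) := by
  have hDc : ∀ x ∈ C, (D - c • (1 : End K V)) x ∈ C := fun x hx =>
    Submodule.sub_mem _ (hD x hx) (Submodule.smul_mem _ _ hx)
  set g : End K C := (D - c • (1 : End K V)).restrict hDc with hg
  have hπg : ∀ x, π (g x) = 0 := fun x => hπ x (hDc x x.2)
  obtain ⟨N, hN1, hN⟩ : ∃ N, 1 ≤ N ∧ IsCompl (LinearMap.ker (g ^ N)) (LinearMap.range (g ^ N)) := by
    have h1 := LinearMap.eventually_isCompl_ker_pow_range_pow g
    obtain ⟨N, hN⟩ := Filter.eventually_atTop.1 h1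
    exact ⟨N + 1, by omega, hN _ (by omega)⟩
  have h1 : LinearMap.range π ≤ (LinearMap.ker (g ^ N)).map π := by
    rintro _ ⟨x, rfl⟩
    have hx : x ∈ LinearMap.ker (g ^ N) ⊔ LinearMap.range (g ^ N) := by
      rw [hN.sup_eq_top]; trivial
    obtain ⟨a, ha, b, ⟨y, rfl⟩, rfl⟩ := Submodule.mem_sup.1 hx
    refine ⟨a, ha, ?_⟩
    obtain ⟨M, rfl⟩ : ∃ M, N = M + 1 := ⟨N - 1, by omega⟩
    rw [map_add, pow_succ', Module.End.mul_apply, hπg, add_zero]
  have h2 : (LinearMap.ker (g ^ N)).map C.subtype ≤ D.maxGenEigenspace c := by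
    rintro _ ⟨x, hx, rfl⟩
    rw [Module.End.mem_maxGenEigenspace]
    refine ⟨N, ?_⟩
    have h3 : ∀ r : ℕ, (((g ^ r) x : C) : V) = ((D - c • (1 : End K V)) ^ r) (x : V) := by
      intro r
      induction r with
      | zero => rfl
      | succ r ih =>
        rw [pow_succ', Module.End.mul_apply, pow_succ', Module.End.mul_apply, ← ih]
        rfl
    have h4 : (g ^ N) x = 0 := hx
    have h5 := h3 N
    rw [h4] at h5
    exact h5.symm
  have h6 : finrank K ((LinearMap.ker (g ^ N)).map C.subtype) = finrank K (LinearMap.ker (g ^ N)) :=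
    ((Submodule.equivMapOfInjective _ (Submodule.subtype_injective _) _).finrank_eq).symm
  calc finrank K (LinearMap.range π) ≤ finrank K ((LinearMap.ker (g ^ N)).map π) :=
        Submodule.finrank_mono h1
    _ ≤ finrank K (LinearMap.ker (g ^ N)) := Submodule.finrank_map_le _ _
    _ = _ := h6.symm
    _ ≤ _ := Submodule.finrank_mono h2

end Count

section Real

/-- From ranks to sums over words. -/
theorem sum_le_words {κ : Type*} [Fintype κ] (l : κ → ℚ) (N : ℕ) (r : ℕ → ℕ)
    (hr : ∀ j ≤ N, r j ≤ (Finset.univ.filter fun w => l w = 2 * (j : ℚ) - N).card) {t : ℝ}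
    (ht : 0 < t) :
    ∑ j ∈ Finset.range (N + 1), (r j : ℝ) * t ^ (2 * j) ≤ t ^ N * ∑ w, t ^ ((l w : ℚ) : ℝ) := by
  classical
  have h1 : ∀ j ∈ Finset.range (N + 1), (r j : ℝ) * t ^ (2 * j) ≤
      t ^ N * ∑ w with l w = 2 * (j : ℚ) - N, t ^ ((l w : ℚ) : ℝ) := by
    intro j hj
    have hj' : j ≤ N := by have := Finset.mem_range.1 hj; omega
    have h2 : ∑ w with l w = 2 * (j : ℚ) - N, t ^ ((l w : ℚ) : ℝ) =
        ((Finset.univ.filter fun w => l w = 2 * (j : ℚ) - N).card : ℝ) *
          t ^ (((2 * (j : ℚ) - N : ℚ)) : ℝ) := by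
      rw [← nsmul_eq_mul, ← Finset.sum_const]
      refine Finset.sum_congr rfl fun w hw => ?_
      rw [(Finset.mem_filter.1 hw).2]
    have h3 : t ^ (2 * j) = t ^ N * t ^ (((2 * (j : ℚ) - N : ℚ)) : ℝ) := by
      rw [← Real.rpow_natCast, ← Real.rpow_natCast, ← Real.rpow_add ht]
      congr 1
      push_cast
      ring
    rw [h2, h3]
    have h4 : (r j : ℝ) ≤ ((Finset.univ.filter fun w => l w = 2 * (j : ℚ) - N).card : ℝ) := by
      exact_mod_cast hr j hj'
    have h5 : 0 ≤ t ^ N * t ^ (((2 * (j : ℚ) - N : ℚ)) : ℝ) :=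
      mul_nonneg (pow_nonneg ht.le _) (Real.rpow_nonneg ht.le _)
    nlinarith
  refine (Finset.sum_le_sum h1).trans ?_
  rw [← Finset.mul_sum]
  refine mul_le_mul_of_nonneg_left ?_ (pow_nonneg ht.le _)
  rw [← Finset.sum_biUnion]
  · exact Finset.sum_le_sum_of_subset_of_nonneg (Finset.subset_univ _)
      fun _ _ _ => Real.rpow_nonneg ht.le _
  · intro a _ b _ hab
    rw [Function.onFun, Finset.disjoint_left]
    intro w hw hw'
    have h1 := (Finset.mem_filter.1 hw).2
    have h2 := (Finset.mem_filter.1 hw').2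
    apply hab
    rw [h1] at h2
    have : (a : ℚ) = b := by linarith
    exact_mod_cast this

/-- The sum over words of a power of `t` with an additive exponent. -/
lemma sum_words {σ : Type*} [Fintype σ] (l : σ → ℚ) (n : ℕ) {t : ℝ} (ht : 0 < t) :
    ∑ w : Fin n → σ, t ^ ((∑ i, l (w i) : ℚ) : ℝ) = (∑ s, t ^ ((l s : ℚ) : ℝ)) ^ n := by
  rw [Fintype.sum_pow]
  refine Finset.sum_congr rfl fun w _ => ?_
  rw [← Real.rpow_sum_of_pos ht]
  congr 1
  push_cast
  rfl

end Real

end Pool.Agent.V8H87.WG
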