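import Mathlib

/-!
# The inequality of the arithmetic and the geometric mean with a gap
-/

set_option autoImplicit false

open Finset

namespace Pool.Agent.V8H87.WG

section

variable {σ : Type*} {t : ℝ}

lemma tangent (ht : 0 < t) (h μ : ℝ) : t ^ μ * (1 + (h - μ) * Real.log t) ≤ t ^ h := by
  have h1 : t ^ h = t ^ μ * Real.exp ((h - μ) * Real.log t) := by
    rw [Real.rpow_def_of_pos ht, Real.rpow_def_of_pos ht, ← Real.exp_add]
    congr 1
    ring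
  rw [h1]
  have h2 := Real.add_one_le_exp ((h - μ) * Real.log t)
  exact mul_le_mul_of_nonneg_left (by linarith) (Real.rpow_nonneg ht.le _)

lemma group_le (ht : 0 < t) (G : Finset σ) (h : σ → ℝ) (μ : ℝ) (hG : ∑ s ∈ G, (h s - μ) = 0) :
    ∑ _s ∈ G, t ^ μ ≤ ∑ s ∈ G, t ^ h s := by
  have h1 : ∑ s ∈ G, t ^ μ * (1 + (h s - μ) * Real.log t) ≤ ∑ s ∈ G, t ^ h s :=
    Finset.sum_le_sum fun s _ => tangent ht (h s) μ
  have h2 : ∑ s ∈ G, t ^ μ * (1 + (h s - μ) * Real.log t) = ∑ _s ∈ G, t ^ μ := by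
    have e : ∀ s ∈ G, t ^ μ * (1 + (h s - μ) * Real.log t) =
        t ^ μ + (t ^ μ * Real.log t) * (h s - μ) := fun s _ => by ring
    rw [Finset.sum_congr rfl e, Finset.sum_add_distrib, ← Finset.mul_sum, hG, mul_zero, add_zero]
  rwa [h2] at h1

lemma group_gap [DecidableEq σ] (ht : 0 < t) (G : Finset σ) (h : σ → ℝ) (μ : ℝ)
    (hG : ∑ s ∈ G, (h s - μ) = 0) {a b : σ} (ha : a ∈ G) (hb : b ∈ G) (hab : a ≠ b) :
    ∑ _s ∈ G, t ^ μ + (t ^ h a + t ^ h b - 2 * t ^ ((h a + h b) / 2)) ≤ ∑ s ∈ G, t ^ h s := by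
  have hb' : b ∈ G.erase a := Finset.mem_erase.2 ⟨hab.symm, hb⟩
  set G' := (G.erase a).erase b with hG'
  have e1 : ∀ f : σ → ℝ, ∑ s ∈ G, f s = f a + (f b + ∑ s ∈ G', f s) := by
    intro f
    rw [← Finset.add_sum_erase G f ha, ← Finset.add_sum_erase (G.erase a) f hb']
  rw [e1] at hG
  rw [e1, e1]
  have h1 : ∑ s ∈ G', t ^ μ * (1 + (h s - μ) * Real.log t) ≤ ∑ s ∈ G', t ^ h s :=
    Finset.sum_le_sum fun s _ => tangent ht (h s) μ
  have h2 : ∑ s ∈ G', t ^ μ * (1 + (h s - μ) * Real.log t) =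
      ∑ _s ∈ G', t ^ μ + (t ^ μ * Real.log t) * ∑ s ∈ G', (h s - μ) := by
    rw [Finset.mul_sum, ← Finset.sum_add_distrib]
    exact Finset.sum_congr rfl fun s _ => by ring
  have h3 := tangent ht ((h a + h b) / 2) μ
  have h4 : ∑ s ∈ G', (h s - μ) = -(h a - μ) - (h b - μ) := by linarith
  rw [h2, h4] at h1
  nlinarith

/-- The gap for two integers of the same parity. -/
lemma gap_ge (ht : 0 < t) {n : ℕ} {p q : ℤ} (hp : -(n : ℤ) ≤ p) (hq : q ≤ n) {d : ℕ} (hd : 1 ≤ d)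
    (hpq : q = p + 2 * d) :
    t ^ (-(n : ℝ)) * ((1 - t) ^ 2 * min 1 (t ^ (2 * n - 2))) ≤
      t ^ (p : ℝ) + t ^ (q : ℝ) - 2 * t ^ (((p : ℝ) + (q : ℝ)) / 2) := by
  have hq' : (q : ℝ) = (p : ℝ) + 2 * d := by exact_mod_cast hpq
  have e1 : t ^ (q : ℝ) = t ^ (p : ℝ) * (t ^ d) ^ 2 := by
    rw [hq', Real.rpow_add ht, ← pow_mul, ← Real.rpow_natCast]
    congr 2
    push_cast
    ring
  have e2 : t ^ (((p : ℝ) + (q : ℝ)) / 2) = t ^ (p : ℝ) * t ^ d := by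
    rw [hq', ← Real.rpow_natCast, ← Real.rpow_add ht]
    congr 1
    ring
  obtain ⟨e, he⟩ : ∃ e : ℕ, p + n = e := ⟨(p + n).toNat, by omega⟩
  have he2 : e ≤ 2 * n - 2 := by omega
  have e3 : t ^ (p : ℝ) = t ^ (-(n : ℝ)) * t ^ e := by
    rw [← Real.rpow_natCast, ← Real.rpow_add ht]
    congr 1
    have : (p : ℝ) + n = e := by exact_mod_cast he
    linarith
  rw [e1, e2, e3]
  have h0 : 0 < t ^ (-(n : ℝ)) := Real.rpow_pos_of_pos ht _
  have h1 : min 1 (t ^ (2 * n - 2)) ≤ t ^ e := by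
    rcases le_total t 1 with h | h
    · exact (min_le_right _ _).trans (pow_le_pow_of_le_one ht.le h he2)
    · exact (min_le_left _ _).trans (one_le_pow₀ h)
  have h2 : (1 - t) ^ 2 ≤ (1 - t ^ d) ^ 2 := by
    have e4 : 1 - t ^ d = (1 - t) * ∑ i ∈ Finset.range d, t ^ i := by
      have := mul_neg_geom_sum t d
      linarith
    have h3 : 1 ≤ ∑ i ∈ Finset.range d, t ^ i := by
      have := Finset.single_le_sum (f := fun i => t ^ i) (fun i _ => (pow_pos ht i).le)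
        (Finset.mem_range.2 hd)
      simpa using this
    rw [e4, mul_pow]
    have h4 : 1 ≤ (∑ i ∈ Finset.range d, t ^ i) ^ 2 := one_le_pow₀ h3
    nlinarith [sq_nonneg (1 - t)]
  have h5 : (1 - t) ^ 2 * min 1 (t ^ (2 * n - 2)) ≤ t ^ e * (1 - t ^ d) ^ 2 := by
    have h6 : 0 ≤ (1 - t) ^ 2 := sq_nonneg _
    have h7 : 0 ≤ t ^ e := (pow_pos ht e).le
    calc (1 - t) ^ 2 * min 1 (t ^ (2 * n - 2)) ≤ (1 - t) ^ 2 * t ^ e :=
          mul_le_mul_of_nonneg_left h1 h6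
      _ ≤ (1 - t ^ d) ^ 2 * t ^ e := mul_le_mul_of_nonneg_right h2 h7
      _ = _ := by ring
  have h8 := mul_le_mul_of_nonneg_left h5 h0.le
  nlinarith

end

/-- **The gap.** -/
theorem gap {σ : Type*} [Fintype σ] {t : ℝ} (ht : 0 < t) (n : ℕ) (h : σ → ℤ) (l : σ → ℚ)
    (β : σ → Bool) (hpar : ∀ s s', β s = β s' → (2 : ℤ) ∣ h s - h s') (hlo : ∀ s, -(n : ℤ) ≤ h s)
    (hup : ∀ s, h s ≤ n)
    (hbal : ∀ (x : Bool) (q : ℚ), ∑ s with (l s = q ∧ β s = x), ((h s : ℚ) - q) = 0) :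
    ∑ s, t ^ ((l s : ℚ) : ℝ) ≤ ∑ s, t ^ ((h s : ℤ) : ℝ) ∧
    ((∃ s, l s ≠ h s) → ∑ s, t ^ ((l s : ℚ) : ℝ) +
      t ^ (-(n : ℝ)) * ((1 - t) ^ 2 * min 1 (t ^ (2 * n - 2))) ≤ ∑ s, t ^ ((h s : ℤ) : ℝ)) := by
  classical
  let A : Finset (ℚ × Bool) := Finset.univ.image fun s => (l s, β s)
  let G : ℚ × Bool → Finset σ := fun a => Finset.univ.filter fun s => (l s, β s) = a
  have hfib : ∀ f : σ → ℝ, ∑ s, f s = ∑ a ∈ A, ∑ s ∈ G a, f s := by
    intro f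
    exact (Finset.sum_fiberwise_of_maps_to
      (fun s _ => Finset.mem_image_of_mem _ (Finset.mem_univ s)) f).symm
  have hG : ∀ a, ∑ s ∈ G a, (((h s : ℤ) : ℝ) - ((a.1 : ℚ) : ℝ)) = 0 := by
    intro a
    have h1 := hbal a.2 a.1
    have h2 : (Finset.univ.filter fun s => l s = a.1 ∧ β s = a.2) = G a := by
      ext s
      simp only [G, Finset.mem_filter, Finset.mem_univ, true_and, Prod.ext_iff]
    rw [h2] at h1
    have h3 := congrArg (fun x : ℚ => (x : ℝ)) h1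
    push_cast at h3
    exact h3
  have hl : ∀ a, ∑ s ∈ G a, t ^ ((l s : ℚ) : ℝ) = ∑ _s ∈ G a, t ^ ((a.1 : ℚ) : ℝ) := by
    intro a
    refine Finset.sum_congr rfl fun s hs => ?_
    have : (l s, β s) = a := (Finset.mem_filter.1 hs).2
    rw [← this]
  have hle : ∀ a, ∑ s ∈ G a, t ^ ((l s : ℚ) : ℝ) ≤ ∑ s ∈ G a, t ^ ((h s : ℤ) : ℝ) := by
    intro a
    rw [hl]
    exact group_le ht _ _ _ (hG a)
  refine ⟨?_, ?_⟩
  · rw [hfib, hfib]
    exact Finset.sum_le_sum fun a _ => hle a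
  · rintro ⟨s0, hs0⟩
    rw [hfib, hfib]
    set a0 : ℚ × Bool := (l s0, β s0) with ha0
    have ha0A : a0 ∈ A := Finset.mem_image_of_mem _ (Finset.mem_univ s0)
    have hs0G : s0 ∈ G a0 := Finset.mem_filter.2 ⟨Finset.mem_univ _, rfl⟩
    -- another index of the group with a different degree
    obtain ⟨s1, hs1G, hs1⟩ : ∃ s1 ∈ G a0, h s1 ≠ h s0 := by
      by_contra hcon
      push Not at hcon
      have h1 := hG a0
      rw [Finset.sum_congr rfl fun s hs => by rw [hcon s hs]] at h1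
      rw [Finset.sum_const, nsmul_eq_mul] at h1
      rcases mul_eq_zero.1 h1 with h2 | h2
      · have h3 : (G a0).card = 0 := by exact_mod_cast h2
        rw [Finset.card_eq_zero] at h3
        rw [h3] at hs0G
        exact absurd hs0G (Finset.notMem_empty _)
      · apply hs0
        have h4 : ((h s0 : ℤ) : ℝ) = ((l s0 : ℚ) : ℝ) := sub_eq_zero.1 h2
        have h5 : ((l s0 : ℚ) : ℝ) = (((h s0 : ℤ) : ℚ) : ℝ) := by rw [← h4]; push_cast; rfl
        exact_mod_cast h5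
    have hβ : β s1 = β s0 := by
      have h1 : (l s1, β s1) = a0 := (Finset.mem_filter.1 hs1G).2
      exact (Prod.ext_iff.1 h1).2
    have key : ∀ a b : σ, a ∈ G a0 → b ∈ G a0 → β a = β b → h a < h b →
        ∑ s ∈ G a0, t ^ ((l s : ℚ) : ℝ) +
          t ^ (-(n : ℝ)) * ((1 - t) ^ 2 * min 1 (t ^ (2 * n - 2))) ≤
            ∑ s ∈ G a0, t ^ ((h s : ℤ) : ℝ) := by
      intro a b ha hb hβ' hlt
      obtain ⟨d, hd⟩ := hpar b a hβ'.symm
      have hab : a ≠ b := fun h' => by rw [h'] at hlt; exact lt_irrefl _ hlt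
      have h6 := group_gap ht (G a0) (fun s => ((h s : ℤ) : ℝ)) _ (hG a0) ha hb hab
      have hd1 : 1 ≤ d := by omega
      have h7 := gap_ge ht (hlo a) (hup b) (d := d.toNat) (by omega) (by omega)
      rw [hl]
      linarith
    have hgap : ∑ s ∈ G a0, t ^ ((l s : ℚ) : ℝ) +
        t ^ (-(n : ℝ)) * ((1 - t) ^ 2 * min 1 (t ^ (2 * n - 2))) ≤
          ∑ s ∈ G a0, t ^ ((h s : ℤ) : ℝ) := by
      rcases lt_or_gt_of_ne hs1 with h8 | h8
      · exact key s1 s0 hs1G hs0G hβ h8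
      · exact key s0 s1 hs0G hs1G hβ.symm h8
    rw [← Finset.add_sum_erase A _ ha0A, ← Finset.add_sum_erase A _ ha0A]
    have h9 : ∑ a ∈ A.erase a0, ∑ s ∈ G a, t ^ ((l s : ℚ) : ℝ) ≤
        ∑ a ∈ A.erase a0, ∑ s ∈ G a, t ^ ((h s : ℤ) : ℝ) := Finset.sum_le_sum fun a _ => hle a
    linarith

end Pool.Agent.V8H87.WG
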