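import Pool.Agent.V8H87.WG.Geo2
import Pool.Agent.V8H87.WG.Lin2
import Pool.Agent.V8H87.WG.Rl
import Pool.Agent.Y133.Half.Growth
import Pool.Agent.W534.PoleA

/-!
# Ranks modulo numerical equivalence of the powers of a variety with the sign conjecture
-/

set_option autoImplicit false

open CategoryTheory AlgebraicGeometry

universe u v

namespace Pool.Agent.V8H87.WG

open Module
open Pool.Agent.H914 Pool.Agent.H914.VarClass Pool.Agent.H914.VarClass.Obj
  Pool.Agent.H914.WeilCohomology Pool.Agent.H447 Pool.Agent.Y133.Half Pool.Agent.W534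
  Pool.Agent.W536.RR Pool.Agent.H281R3.HT

variable {k : Type u} [Field k] {𝒱 : VarClass k} {ops : CycleOps 𝒱}
  {W : WeilCohomology.{u, v} ops} {X Y Z Z' P Q M N : 𝒱.Obj}

lemma span_le_alg (Z : 𝒱.Obj) (j : ℕ) : spanCycles W Z j ≤ (algSys W).C Z := by
  change spanCycles W Z j ≤ algSpan W Z
  rw [spanCycles, Submodule.span_le]
  rintro _ ⟨p, hp, z, hz, rfl⟩
  exact cl_mem_algSpan hz

/-- Algebraic operators of degree zero preserve the spans of the classes of given codimension. -/
lemma KOp_apply {x : Module.End W.K (W.H Z)} (hx : x ∈ KOp W Z Z 0) {j : ℕ} {c : W.H Z}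
    (hc : c ∈ spanCycles W Z j) : x c ∈ spanCycles W Z j := by
  induction hx using Submodule.span_induction with
  | mem x hx =>
    obtain ⟨p, hp, z, hz, rfl⟩ := hx
    induction hc using Submodule.span_induction with
    | mem c hc =>
      obtain ⟨q, hq, w, hw, rfl⟩ := hc
      rw [corr_apply, ← W.cl_pull, ← W.cl_mul, ← W.cl_push]
      refine Submodule.subset_span ⟨q, hq, _, ops.push_mem _ (ops.mul_mem hz
        (ops.pull_mem _ hw)) ?_, rfl⟩
      rw [dim_prod]
      omega
    | zero => rw [map_zero]; exact Submodule.zero_mem _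
    | add a b _ _ ha hb => rw [map_add]; exact Submodule.add_mem _ ha hb
    | smul t a _ ha => rw [map_smul]; exact Submodule.smul_mem _ _ ha
  | zero => rw [LinearMap.zero_apply]; exact Submodule.zero_mem _
  | add a b _ _ ha hb => rw [LinearMap.add_apply]; exact Submodule.add_mem _ ha hb
  | smul t a _ ha => rw [LinearMap.smul_apply]; exact Submodule.smul_mem _ _ ha

/-- The ranks of the powers and the generalised eigenspaces of the derivation. -/
theorem kRank_le_gen (h : SignConj W X) {T : Module.End W.K (W.H X)} (hT : T ∈ KOp W X X 0)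
    (hTr : ∀ y ∈ KOp W X X 0,
      LinearMap.trace W.K (W.H X) (T * y) = LinearMap.trace W.K (W.H X) (Hw W X * y))
    (m : ℕ) {j : ℕ} (hj : j ≤ (pw X m).dim) :
    numRank ops (pw X m) j ≤ finrank W.K
      ((Dm W X T m).maxGenEigenspace (((2 * (j : ℚ) - (pw X m).dim : ℚ)) : W.K)) := by
  rw [numRank_eq (W := W) hj, kRank]
  have heT : IsHom (W.gr X) 0 (T - Hw W X) := (KOp0_isHom hT).sub (isHom_scal _ _)
  have he : Ev W (T - Hw W X) := by
    intro b x hx
    refine PH.ind (p := fun x => (T - Hw W X) x ∈ PH W X b) ?_ ?_ ?_ hx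
    · intro i hi x hx
      have := heT i x (by rw [grZ_natCast]; exact hx)
      rw [add_zero, grZ_natCast] at this
      exact PH.of' hi this
    · rw [map_zero]; exact Submodule.zero_mem _
    · intro x y hx hy; rw [map_add]; exact Submodule.add_mem _ hx hy
  have hQ := (Qp_Dm (S := algSys W) he (fun y hy => trace_e h hT hTr hy) m).1
  rw [Dm_sub, Dm_Hw] at hQ
  refine finrank_range_le_gen (spanCycles W (pw X m) j) (Dm W X T m) _
    (fun x hx => KOp_apply (Dm_mem hT m) hx) _ ?_
  intro x hx
  apply LinearMap.ext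
  intro d
  rw [pair_apply, LinearMap.zero_apply]
  have h1 := hQ x (span_le_alg _ _ x.2) d (span_le_alg _ _ d.2)
  have h2 : (Dm W X T m - Hw W (pw X m)) (x : W.H (pw X m)) =
      Dm W X T m (x : W.H (pw X m)) - (((2 * (j : ℚ) - (pw X m).dim : ℚ)) : W.K) •
        (x : W.H (pw X m)) := by
    rw [LinearMap.sub_apply, Hw_apply (Pool.Agent.H447.span_gr x.2)]
    push_cast
    rfl
  rw [h2] at h1
  exact h1

/-- The eigenvalues of the derivation. -/
theorem wb_mem {B : ℕ} (b : Basis (Fin B) W.K (W.H X)) {T : Module.End W.K (W.H X)}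
    (l : Fin B → ℚ) (hb : ∀ s, b s ∈ T.maxGenEigenspace (l s : W.K)) (m : ℕ)
    (w : Fin (m + 1) → Fin B) :
    wb b m w ∈ (Dm W X T m).maxGenEigenspace ((∑ i, l (w i) : ℚ) : W.K) := by
  induction m with
  | zero =>
    rw [wb_zero]
    have := hb (w 0)
    rw [Fin.sum_univ_one]
    exact this
  | succ m ih =>
    rw [wb_succ, Fin.sum_univ_castSucc]
    push_cast
    have h1 := gen_add (f := Dm W X T m) (g := T) (h := Dm W X T (m + 1))
      (β := (LinearMap.mul W.K (W.H ((pw X m).prod X))).compl₁₂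
        (W.map (fst (pw X m) X)).toLinearMap (W.map (snd (pw X m) X)).toLinearMap)
      (fun a b => by
        change (extOp W (Dm W X T m) (1 : Module.End W.K (W.H X)) +
          extOp W (1 : Module.End W.K (W.H (pw X m))) T) (W.map (fst (pw X m) X) a *
            W.map (snd (pw X m) X) b) = W.map (fst (pw X m) X) (Dm W X T m a) *
            W.map (snd (pw X m) X) b + W.map (fst (pw X m) X) a *
            W.map (snd (pw X m) X) (T b)
        rw [LinearMap.add_apply, extOp_tmul, extOp_tmul]
        rfl) (ih fun i => w i.castSucc) (hb (w (Fin.last _)))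
    have h2 := h1
    push_cast at h2
    exact h2

lemma dim_pw (X : 𝒱.Obj) (m : ℕ) : (pw X m).dim = (m + 1) * X.dim := by
  induction m with
  | zero => rw [zero_add, one_mul]; rfl
  | succ m ih =>
    have : (pw X (m + 1)).dim = (pw X m).dim + X.dim := rfl
    rw [this, ih]
    ring

/-- The first bound. -/
theorem sum_numRank_le (h : SignConj W X) {T : Module.End W.K (W.H X)} (hT : T ∈ KOp W X X 0)
    (hTr : ∀ y ∈ KOp W X X 0,
      LinearMap.trace W.K (W.H X) (T * y) = LinearMap.trace W.K (W.H X) (Hw W X * y))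
    {B : ℕ} (b : Basis (Fin B) W.K (W.H X)) (l : Fin B → ℚ)
    (hb : ∀ s, b s ∈ T.maxGenEigenspace (l s : W.K)) (m : ℕ) {t : ℝ} (ht : 0 < t) :
    ∑ j ∈ Finset.range ((pw X m).dim + 1), (numRank ops (pw X m) j : ℝ) * t ^ (2 * j) ≤
      (t ^ X.dim * ∑ s, t ^ ((l s : ℚ) : ℝ)) ^ (m + 1) := by
  have h1 := sum_le_words (fun w : Fin (m + 1) → Fin B => ∑ i, l (w i)) (pw X m).dim
    (fun j => numRank ops (pw X m) j) (fun j hj => by
      refine (kRank_le_gen h hT hTr m hj).trans ?_
      exact finrank_gen_le (wb b m) _ _ (wb_mem b l hb m) _) ht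
  refine h1.trans (le_of_eq ?_)
  rw [sum_words _ _ ht, dim_pw, mul_pow, ← pow_mul]
  congr 2
  ring

end Pool.Agent.V8H87.WG
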