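import Pool.Agent.V8H87.WG.Geo3

/-!
# The generating function of the ranks of the powers and the Künneth conjecture
-/

set_option autoImplicit false

open CategoryTheory AlgebraicGeometry

universe u v

namespace Pool.Agent.V8H87.WG

open Module
open Pool.Agent.H914 Pool.Agent.H914.VarClass Pool.Agent.H914.VarClass.Obj
  Pool.Agent.H914.WeilCohomology Pool.Agent.H447 Pool.Agent.Y133.Half Pool.Agent.W534

variable {k : Type u} [Field k] {𝒱 : VarClass k} {ops : CycleOps 𝒱}
  {W : WeilCohomology.{u, v} ops} {X Y Z Z' P Q M N : 𝒱.Obj}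

/-- The projectors onto the cohomology groups. -/
noncomputable def PP (W : WeilCohomology.{u, v} ops) (X : 𝒱.Obj) (i : Fin (2 * X.dim + 1)) :
    Module.End W.K (W.H X) := proj (W.isInternal X) i

lemma PP_mul (i j : Fin (2 * X.dim + 1)) : PP W X i * PP W X j = if i = j then PP W X i else 0 := by
  split_ifs with h
  · subst h; exact proj_mul_proj _ _
  · exact proj_mul_ne _ fun h' => h (Fin.ext h')

lemma PP_sum : ∑ i, PP W X i = 1 := by
  rw [← sum_proj (W.isInternal X) (hbd X), Finset.sum_range]
  rfl

/-- The parity of a degree. -/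
def βp (X : 𝒱.Obj) (i : Fin (2 * X.dim + 1)) : Bool := decide (Even (i : ℕ))

lemma even_sum : ∑ i with βp X i = true, PP W X i = evenProj (W.isInternal X) := by
  rw [evenProj, scal_eq_sum (W.isInternal X) (hbd X), Finset.sum_range, Finset.sum_filter]
  refine Finset.sum_congr rfl fun i _ => ?_
  rw [βp, PP]
  by_cases h : Even (i : ℕ)
  · rw [if_pos (by simpa using h), if_pos h, one_smul]
  · rw [if_neg (by simpa using h), if_neg h, zero_smul]

lemma odd_sum : ∑ i with βp X i = false, PP W X i = 1 - evenProj (W.isInternal X) := by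
  rw [← even_sum, eq_sub_iff_add_eq, ← PP_sum, ← Finset.sum_fiberwise (Finset.univ) (βp X) (PP W X),
    Fintype.sum_bool, add_comm]

lemma parity_mem (h : SignConj W X) (x : Bool) : ∑ i with βp X i = x, PP W X i ∈ KOp W X X 0 := by
  cases x
  · rw [odd_sum]; exact Submodule.sub_mem _ KOp0_one (evenProj_mem h)
  · rw [even_sum]; exact evenProj_mem h

/-- The weights. -/
def wgt (X : 𝒱.Obj) (i : Fin (2 * X.dim + 1)) : ℚ := (i : ℕ) - (X.dim : ℚ)

lemma trId (h : SignConj W X) {T : Module.End W.K (W.H X)} (hT : T ∈ KOp W X X 0)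
    (hTr : ∀ y ∈ KOp W X X 0,
      LinearMap.trace W.K (W.H X) (T * y) = LinearMap.trace W.K (W.H X) (Hw W X * y)) :
    TrId T (PP W X) (βp X) (wgt X) := by
  intro x r
  have h1 : T ^ r * ∑ i with βp X i = x, PP W X i ∈ KOp W X X 0 :=
    KOp0_mul (KOp0_pow hT r) (parity_mem h x)
  have h2 := hTr _ h1
  have h3 : T * (T ^ r * ∑ i with βp X i = x, PP W X i) =
      ∑ i with βp X i = x, T ^ (r + 1) * PP W X i := by
    rw [← mul_assoc, ← pow_succ', Finset.mul_sum]
  have h4 : Hw W X * (T ^ r * ∑ i with βp X i = x, PP W X i) =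
      ∑ i with βp X i = x, Hw W X * (T ^ r * PP W X i) := by
    rw [Finset.mul_sum, Finset.mul_sum]
  rw [h3, h4, map_sum, map_sum] at h2
  have h5 : ∀ i, LinearMap.trace W.K (W.H X) (PP W X i * T ^ (r + 1)) =
      LinearMap.trace W.K (W.H X) (T ^ (r + 1) * PP W X i) := fun i =>
    LinearMap.trace_mul_comm _ _ _
  have h6 : ∀ i, (wgt X i : W.K) * LinearMap.trace W.K (W.H X) (PP W X i * T ^ r) =
      LinearMap.trace W.K (W.H X) (Hw W X * (T ^ r * PP W X i)) := by
    intro i
    have e1 : PP W X i * Hw W X = (wgt X i : W.K) • PP W X i := by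
      apply LinearMap.ext
      intro a
      rw [Module.End.mul_apply, LinearMap.smul_apply]
      refine gr_induction (W.isInternal X) (p := fun a => PP W X i (Hw W X a) =
        (wgt X i : W.K) • PP W X i a) ?_ ?_ a
      · intro j a ha
        rw [Hw_apply ha, map_smul, PP]
        by_cases hj : j = i
        · subst hj
          rw [proj_same _ ha, wgt]
          push_cast
          rfl
        · rw [proj_ne _ ha hj, smul_zero, smul_zero]
      · intro a b ha hb
        rw [map_add, map_add, ha, hb, map_add, smul_add]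
    rw [LinearMap.trace_mul_comm W.K (Hw W X), mul_assoc, e1, mul_smul_comm, map_smul,
      smul_eq_mul, LinearMap.trace_mul_comm W.K (PP W X i)]
  rw [Finset.sum_congr rfl fun i _ => h5 i, Finset.sum_congr rfl fun i _ => h6 i]
  exact h2

/-- The operator given by a polynomial in the weight operator. -/
lemma aeval_Hw (p : Polynomial W.K) {i : ℕ} {a : W.H X} (ha : a ∈ W.gr X i) :
    (Polynomial.aeval (Hw W X) p) a = p.eval ((i : W.K) - X.dim) • a := by
  induction p using Polynomial.induction_on' with
  | add p q hp hq => rw [map_add, LinearMap.add_apply, hp, hq, Polynomial.eval_add, add_smul]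
  | monomial r c =>
    rw [Polynomial.aeval_monomial, Polynomial.eval_monomial, Module.End.mul_apply]
    have h1 : ∀ r : ℕ, ((Hw W X) ^ r) a = ((i : W.K) - X.dim) ^ r • a := by
      intro r
      induction r with
      | zero => rw [pow_zero, pow_zero, one_smul]; rfl
      | succ r ih => rw [pow_succ, Module.End.mul_apply, Hw_apply ha, map_smul, ih, smul_smul,
          pow_succ, mul_comm]
    rw [h1, map_smul, Module.algebraMap_end_apply, smul_smul, mul_comm]

/-- The Künneth conjecture follows if the weight operator is algebraic. -/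
theorem kunneth_of_Hw (h : Hw W X ∈ KOp W X X 0) : KunnethConj W X := by
  classical
  have hpoly : ∀ p : Polynomial W.K, Polynomial.aeval (Hw W X) p ∈ KOp W X X 0 := by
    intro p
    induction p using Polynomial.induction_on' with
    | add p q hp hq => rw [map_add]; exact Submodule.add_mem _ hp hq
    | monomial r c =>
      rw [Polynomial.aeval_monomial, Algebra.algebraMap_eq_smul_one, smul_mul_assoc, one_mul]
      exact Submodule.smul_mem _ _ (KOp0_pow h r)
  intro i
  by_cases hi : i < 2 * X.dim + 1
  · have h1 := hpoly (Lagrange.basis (Finset.range (2 * X.dim + 1))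
      (fun j => ((j : W.K) - X.dim)) i)
    obtain ⟨γ, hγ, hγ'⟩ := mem_KOp_iff.1 h1
    refine ⟨γ, by rw [add_zero] at hγ; exact hγ, ?_⟩
    rw [hγ']
    intro j a ha
    rw [aeval_Hw _ ha]
    have hinj : Set.InjOn (fun j : ℕ => ((j : W.K) - X.dim))
        (Finset.range (2 * X.dim + 1) : Set ℕ) := by
      intro a _ b _ hab
      have : (a : W.K) = b := by
        have h' : (a : W.K) - X.dim = (b : W.K) - X.dim := hab
        exact sub_left_injective h'
      exact_mod_cast this
    by_cases hj : j < 2 * X.dim + 1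
    · by_cases hij : j = i
      · subst hij
        have h2 := Lagrange.eval_basis_self (v := fun j : ℕ => ((j : W.K) - X.dim)) hinj
          (Finset.mem_range.2 hj)
        rw [if_pos rfl, h2, one_smul]
      · have h2 := Lagrange.eval_basis_of_ne (v := fun j : ℕ => ((j : W.K) - X.dim))
          (fun h' => hij h'.symm) (Finset.mem_range.2 hj)
        rw [if_neg hij, h2, zero_smul]
    · rw [W.gr_eq_bot X j (by omega)] at ha
      rw [(Submodule.mem_bot _).1 ha, smul_zero]
      split_ifs <;> rfl
  · refine ⟨0, Submodule.zero_mem _, ?_⟩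
    rw [corr_zero]
    intro j a ha
    rw [LinearMap.zero_apply]
    split_ifs with hij
    · subst hij
      rw [W.gr_eq_bot X j (by omega)] at ha
      exact ((Submodule.mem_bot _).1 ha).symm
    · rfl

/-- **The main theorem.** -/
theorem main (h : SignConj W X) (hK : ¬ KunnethConj W X) (m : ℕ) {t : ℝ} (ht : 0 < t) :
    ∑ j ∈ Finset.range ((pw X m).dim + 1), (numRank ops (pw X m) j : ℝ) * t ^ (2 * j) ≤
      (∑ i ∈ Finset.range (2 * X.dim + 1), (W.betti X i : ℝ) * t ^ i -
        (1 - t) ^ 2 * min 1 (t ^ (2 * X.dim - 2))) ^ (m + 1) := by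
  classical
  obtain ⟨T, hT, hTr⟩ := exists_T0 W X
  have hcT : ∀ i, Commute T (PP W X i) := fun i => ((KOp0_isHom hT).proj_comm _ _).symm
  obtain ⟨S, b, f, l, hS, hN, hbS, hbP, hbal⟩ := exists_basis hcT PP_mul PP_sum (trId h hT hTr)
  have hTS : Commute T S := by
    have : ∀ Y ∈ Algebra.adjoin W.K {T}, Commute T Y := by
      intro Y hY
      induction hY using Algebra.adjoin_induction with
      | mem x hx => rw [Set.mem_singleton_iff.1 hx]
      | algebraMap r => exact (Algebra.commute_algebraMap_left r T).symm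
      | add x y _ _ hx hy => exact hx.add_right hy
      | mul x y _ _ hx hy => exact hx.mul_right hy
    exact this S hS
  have hb : ∀ s, b s ∈ Module.End.maxGenEigenspace T (l s : W.K) := fun s =>
    mem_gen_of hN hTS (hbS s)
  -- the degrees
  set hh : Fin (finrank W.K (W.H X)) → ℤ := fun s => (f s : ℕ) - (X.dim : ℤ) with hhdef
  have hhw : ∀ s, ((hh s : ℤ) : ℚ) = wgt X (f s) := fun s => by
    rw [hhdef, wgt]
    push_cast
    rfl
  have hgr : ∀ s, b s ∈ W.gr X (f s) := by
    intro s
    rw [← hbP s]
    exact proj_mem _ _ _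
  have hHb : ∀ s, Hw W X (b s) = ((hh s : ℤ) : W.K) • b s := by
    intro s
    rw [Hw_apply (hgr s), hhdef]
    push_cast
    rfl
  have hgap := gap ht X.dim hh l (fun s => βp X (f s))
    (by
      intro s s' hss
      have h1 : (Even (f s : ℕ)) ↔ (Even (f s' : ℕ)) := by
        have : decide (Even (f s : ℕ)) = decide (Even (f s' : ℕ)) := hss
        exact decide_eq_decide.1 this
      rw [hhdef]
      simp only
      rw [Nat.even_iff, Nat.even_iff] at h1
      omega)
    (by intro s; rw [hhdef]; simp only; omega)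
    (by intro s; rw [hhdef]; simp only; have := (f s).2; omega)
    (by
      intro x q
      have h1 := hbal x q
      rw [← h1]
      refine Finset.sum_congr ?_ fun s _ => by rw [hhw]
      ext s
      simp only [Finset.mem_filter, Finset.mem_univ, true_and])
  -- some eigenvalue differs
  have hne : ∃ s, l s ≠ hh s := by
    by_contra hcon
    push Not at hcon
    apply hK
    apply kunneth_of_Hw
    have h1 : Hw W X = S := by
      apply b.ext
      intro s
      rw [hHb, hbS, hcon s]
      push_cast
      rfl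
    rw [h1]
    have h2 : ∀ Y ∈ Algebra.adjoin W.K {T}, Y ∈ KOp W X X 0 := by
      intro Y hY
      induction hY using Algebra.adjoin_induction with
      | mem x hx => rw [Set.mem_singleton_iff.1 hx]; exact hT
      | algebraMap r =>
        rw [Algebra.algebraMap_eq_smul_one]
        exact Submodule.smul_mem _ _ KOp0_one
      | add x y _ _ hx hy => exact Submodule.add_mem _ hx hy
      | mul x y _ _ hx hy => exact KOp0_mul hx hy
    exact h2 S hS
  have hg2 := hgap.2 hne
  -- the Betti numbers
  have hcard : ∀ i : Fin (2 * X.dim + 1),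
      ((Finset.univ.filter fun s => f s = i).card) = W.betti X i := by
    intro i
    have h1 : LinearMap.trace W.K (W.H X) (PP W X i) = ∑ s, if f s = i then (1 : W.K) else 0 := by
      apply trace_diag b
      intro s
      have h2 := hbP s
      split_ifs with hs
      · rw [one_smul, ← hs]; exact h2
      · rw [zero_smul, ← h2, ← Module.End.mul_apply, PP_mul, if_neg (fun h' => hs h'.symm)]
        rfl
    rw [PP, trace_proj, Finset.sum_ite, Finset.sum_const_zero, add_zero, Finset.sum_const,
      nsmul_eq_mul, mul_one] at h1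
    rw [betti]
    exact_mod_cast h1.symm
  have hP : t ^ X.dim * ∑ s, t ^ ((hh s : ℤ) : ℝ) =
      ∑ i ∈ Finset.range (2 * X.dim + 1), (W.betti X i : ℝ) * t ^ i := by
    rw [Finset.sum_range, ← Finset.sum_fiberwise Finset.univ f, Finset.mul_sum]
    refine Finset.sum_congr rfl fun i _ => ?_
    rw [← hcard i, Finset.mul_sum]
    have h1 : ∀ s ∈ Finset.univ.filter (fun s => f s = i),
        t ^ X.dim * t ^ ((hh s : ℤ) : ℝ) = t ^ (i : ℕ) := by
      intro s hs
      rw [hhdef]
      simp only
      rw [(Finset.mem_filter.1 hs).2, ← Real.rpow_natCast, ← Real.rpow_natCast, ← Real.rpow_add ht]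
      congr 1
      push_cast
      ring
    rw [Finset.sum_congr rfl h1, Finset.sum_const, nsmul_eq_mul]
  refine (sum_numRank_le h hT hTr b l hb m ht).trans ?_
  have h0 : 0 ≤ t ^ X.dim * ∑ s, t ^ ((l s : ℚ) : ℝ) :=
    mul_nonneg (pow_nonneg ht.le _) (Finset.sum_nonneg fun _ _ => Real.rpow_nonneg ht.le _)
  refine pow_le_pow_left₀ h0 ?_ _
  rw [← hP]
  have h3 := mul_le_mul_of_nonneg_left hg2 (pow_nonneg ht.le X.dim)
  rw [mul_add, ← mul_assoc (t ^ X.dim) (t ^ (-(X.dim : ℝ)))] at h3
  have h4 : t ^ X.dim * t ^ (-(X.dim : ℝ)) = 1 := by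
    rw [← Real.rpow_natCast, ← Real.rpow_add ht, add_neg_cancel, Real.rpow_zero]
  rw [h4, one_mul] at h3
  linarith

end Pool.Agent.V8H87.WG
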