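import Pool.Agent.H914R2.Core0

/-!
# Representing a functional by the trace form
-/

set_option autoImplicit false

open Module LinearMap

namespace Pool.Agent.V8H87.WG

section

variable {K : Type*} [Field K] {A : Type*} [AddCommGroup A] [Module K A] [Module.Finite K A]

/-- A functional which vanishes on the kernel of a symmetric form is represented by it. -/
lemma exists_rep (B : A →ₗ[K] A →ₗ[K] K) (hB : ∀ x y, B x y = B y x) (f : A →ₗ[K] K)
    (hf : ∀ x, (∀ y, B x y = 0) → f x = 0) : ∃ x, ∀ y, B x y = f y := by
  have h1 : f ∈ (LinearMap.ker B).dualAnnihilator := by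
    rw [Submodule.mem_dualAnnihilator]
    intro x hx
    refine hf x fun y => ?_
    rw [LinearMap.mem_ker.1 hx]
    rfl
  rw [← LinearMap.range_dualMap_eq_dualAnnihilator_ker] at h1
  obtain ⟨g, hg⟩ := h1
  obtain ⟨x, rfl⟩ := (Module.evalEquiv K A).surjective g
  refine ⟨x, fun y => ?_⟩
  have h2 := congrArg (fun F : Module.Dual K A => F y) hg
  rw [hB]
  exact h2

end

section

variable {K V : Type*} [Field K] [CharZero K] [AddCommGroup V] [Module K V] [Module.Finite K V]

/-- An element of an algebra of operators with the traces of a given operator `H`. -/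
theorem exists_T (A : Submodule K (End K V)) (hmul : ∀ x ∈ A, ∀ y ∈ A, x * y ∈ A)
    (hone : (1 : End K V) ∈ A) (H : End K V)
    (hH : ∀ x ∈ A, IsNilpotent x → LinearMap.trace K V (H * x) = 0) :
    ∃ T ∈ A, ∀ y ∈ A, LinearMap.trace K V (T * y) = LinearMap.trace K V (H * y) := by
  let B : A →ₗ[K] A →ₗ[K] K :=
    LinearMap.mk₂ K (fun x y => LinearMap.trace K V ((x : End K V) * (y : End K V)))
      (fun x x' y => by rw [Submodule.coe_add, add_mul, map_add])
      (fun c x y => by rw [Submodule.coe_smul, smul_mul_assoc, map_smul])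
      (fun x y y' => by rw [Submodule.coe_add, mul_add, map_add])
      (fun c x y => by rw [Submodule.coe_smul, mul_smul_comm, map_smul])
  have hBa : ∀ x y, B x y = LinearMap.trace K V ((x : End K V) * (y : End K V)) := fun _ _ => rfl
  let f : A →ₗ[K] K := LinearMap.trace K V ∘ₗ LinearMap.mulLeft K H ∘ₗ A.subtype
  have hfa : ∀ x, f x = LinearMap.trace K V (H * (x : End K V)) := fun _ => rfl
  obtain ⟨T, hT⟩ := exists_rep B (fun x y => by rw [hBa, hBa, LinearMap.trace_mul_comm]) f (by
    intro x hx
    rw [hfa]
    apply hH _ x.2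
    apply Pool.Agent.H914.isNilpotent_of_trace_pow
    have hpow : ∀ r : ℕ, (x : End K V) ^ r ∈ A := by
      intro r
      induction r with
      | zero => rw [pow_zero]; exact hone
      | succ r ih => rw [pow_succ]; exact hmul _ ih _ x.2
    intro r
    have := hx ⟨_, hpow r⟩
    rw [hBa] at this
    rw [pow_succ']
    exact this)
  refine ⟨T, T.2, fun y hy => ?_⟩
  have := hT ⟨y, hy⟩
  rw [hBa, hfa] at this
  exact this

end

end Pool.Agent.V8H87.WG
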